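import Mathlib
import Pool.Agent.Lib.MP_89bcae_ag.Wt.Defs

/-!
# The curve `y ^ N = f(x)` over an algebraically closed field: basic definitions

The curve, its points, the automorphism `y ↦ ζ y`.
-/

open Polynomial IsDedekindDomain

open scoped Classical

namespace Pool.Agent.Lib.MP_89bcae_ag.Wt

universe u

/-- The hypotheses on the curve `y ^ N = f(x)`: it is totally ramified at the roots of `f` and at
infinity. -/
class IsGood (N : ℕ) {E : Type u} [Field E] (f : E[X]) : Prop where
  alg : IsAlgClosed E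
  one_lt : 1 < N
  ne_zero : (N : E) ≠ 0
  mult : ∀ θ, f.eval θ = 0 → (f.rootMultiplicity θ).Coprime N
  coprime : f.natDegree.Coprime N

section

variable (N : ℕ) {E : Type u} [Field E] (f : E[X])

/-- The points of the affine curve `y ^ N = f(x)`. -/
@[ext]
structure Pt where
  /-- the first coordinate -/
  x : E
  /-- the second coordinate -/
  y : E
  eq : y ^ N = f.eval x

end

section

variable {N : ℕ} {E : Type u} [Field E] {f : E[X]}

/-- The function `p(x)` on the curve. -/
noncomputable def polyF : E[X] →+* FunField N f := algebraMap E[X] (FunField N f)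

lemma polyF_eq (p : E[X]) :
    (polyF p : FunField N f) = AdjoinRoot.of _ (algebraMap E[X] (RatFunc E) p) := by
  unfold polyF
  rw [IsScalarTower.algebraMap_apply E[X] (RatFunc E) (FunField N f), AdjoinRoot.algebraMap_eq]

/-- The function `y` on the curve. -/
noncomputable def yF : FunField N f := AdjoinRoot.root _

lemma yF_pow : (yF : FunField N f) ^ N = polyF f := by
  have h := AdjoinRoot.eval₂_root (X ^ N - C (algebraMap E[X] (RatFunc E) f) : (RatFunc E)[X])
  rw [eval₂_sub, eval₂_pow, eval₂_X, eval₂_C, sub_eq_zero] at h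
  rw [polyF_eq]
  exact h

lemma IsGood.ne (hG : IsGood N f) : N ≠ 0 := (zero_lt_one.trans hG.one_lt).ne'

lemma IsGood.pos (hG : IsGood N f) : 0 < N := zero_lt_one.trans hG.one_lt

lemma IsGood.one_le (hG : IsGood N f) : 1 ≤ N := hG.one_lt.le

lemma yF_integral (hN : N ≠ 0) : (yF : FunField N f) ∈ integralClosure E[X] (FunField N f) := by
  refine ⟨X ^ N - C f, monic_X_pow_sub_C f hN, ?_⟩
  rw [eval₂_sub, eval₂_pow, eval₂_X, eval₂_C, yF_pow]
  exact sub_self _

/-- The function `p(x)` in the coordinate ring. -/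
noncomputable def ofPoly : E[X] →+* NRing N f := algebraMap E[X] (NRing N f)

@[simp] lemma coe_ofPoly (p : E[X]) : ((ofPoly p : NRing N f) : FunField N f) = polyF p := rfl

/-- The function `y` in the coordinate ring. -/
noncomputable def yy [hG : IsGood N f] : NRing N f := ⟨yF, yF_integral hG.ne⟩

@[simp] lemma coe_yy [hG : IsGood N f] : ((yy : NRing N f) : FunField N f) = yF := rfl

lemma yy_pow [hG : IsGood N f] : (yy : NRing N f) ^ N = ofPoly f :=
  Subtype.ext yF_pow

/-- The point `(x, ζ y)`. -/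
def Pt.rot (ζ : E) (hζ : ζ ^ N = 1) (P : Pt N f) : Pt N f :=
  ⟨P.x, ζ * P.y, by rw [mul_pow, hζ, one_mul, P.eq]⟩

/-- The image of a point under a homomorphism of fields. -/
def Pt.map {E' : Type u} [Field E'] {f' : E'[X]} (σ : E →+* E') (h : f.map σ = f')
    (P : Pt N f) : Pt N f' :=
  ⟨σ P.x, σ P.y, by rw [← map_pow, P.eq, ← h, Polynomial.eval_map, Polynomial.eval₂_hom]⟩

/-- The automorphism `y ↦ ζ y` of the ring of rational functions. -/
noncomputable def rotF (ζ : E) (hζ : ζ ^ N = 1) : FunField N f →+* FunField N f :=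
  AdjoinRoot.lift (AdjoinRoot.of _) (polyF (C ζ) * yF) (by
    rw [eval₂_sub, eval₂_pow, eval₂_X, eval₂_C, mul_pow, yF_pow, ← map_pow, ← C_pow,
      hζ, C_1, map_one, one_mul, polyF_eq, sub_self])

@[simp] lemma rotF_polyF (ζ : E) (hζ : ζ ^ N = 1) (p : E[X]) :
    rotF ζ hζ (polyF p : FunField N f) = polyF p := by
  rw [polyF_eq]
  unfold rotF
  exact AdjoinRoot.lift_of _

@[simp] lemma rotF_yF (ζ : E) (hζ : ζ ^ N = 1) :
    rotF ζ hζ (yF : FunField N f) = polyF (C ζ) * yF := by
  unfold rotF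
  exact AdjoinRoot.lift_root _

lemma rotF_isIntegral (ζ : E) (hζ : ζ ^ N = 1) (a : NRing N f) :
    rotF ζ hζ (a : FunField N f) ∈ integralClosure E[X] (FunField N f) := by
  obtain ⟨p, hp, hpa⟩ := (a.2 : IsIntegral E[X] (a : FunField N f))
  refine ⟨p, hp, ?_⟩
  rw [show algebraMap E[X] (FunField N f) = (rotF ζ hζ).comp (algebraMap E[X] (FunField N f)) from
      RingHom.ext fun q => (rotF_polyF ζ hζ q).symm, ← Polynomial.hom_eval₂, hpa, map_zero]

/-- The automorphism `y ↦ ζ y` of the coordinate ring. -/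
noncomputable def rotC (ζ : E) (hζ : ζ ^ N = 1) : NRing N f →+* NRing N f :=
  ((rotF ζ hζ).comp (algebraMap (NRing N f) (FunField N f))).codRestrict
    (integralClosure E[X] (FunField N f)) (rotF_isIntegral ζ hζ)

@[simp] lemma coe_rotC (ζ : E) (hζ : ζ ^ N = 1) (a : NRing N f) :
    ((rotC ζ hζ a : NRing N f) : FunField N f) = rotF ζ hζ (a : FunField N f) := rfl

@[simp] lemma rotC_ofPoly (ζ : E) (hζ : ζ ^ N = 1) (p : E[X]) :
    rotC ζ hζ (ofPoly p : NRing N f) = ofPoly p := Subtype.ext (rotF_polyF ζ hζ p)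

@[simp] lemma rotC_yy [hG : IsGood N f] (ζ : E) (hζ : ζ ^ N = 1) :
    rotC ζ hζ (yy : NRing N f) = ofPoly (C ζ) * yy := Subtype.ext (rotF_yF ζ hζ)

@[simp] lemma coe_coordMap {E' : Type u} [Field E'] {f' : E'[X]} (σ : E →+* E')
    (h : f.map σ = f') (a : NRing N f) :
    ((coordMap N σ h a : NRing N f') : FunField N f') = funMap N σ h (a : FunField N f) := rfl

lemma funMap_polyF {E' : Type u} [Field E'] {f' : E'[X]} (σ : E →+* E')
    (h : f.map σ = f') (p : E[X]) : funMap N σ h (polyF p : FunField N f) = polyF (p.map σ) :=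
  funMap_algebraMap N σ h p

lemma funMap_yF {E' : Type u} [Field E'] {f' : E'[X]} (σ : E →+* E')
    (h : f.map σ = f') : funMap N σ h (yF : FunField N f) = yF := by
  unfold funMap yF
  exact AdjoinRoot.map_root _ _ _ _

end

end Pool.Agent.Lib.MP_89bcae_ag.Wt
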