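import Mathlib
import Pool.Agent.Lib.MP_89bcae_ag.Wt.Base

open Polynomial IsDedekindDomain

open scoped Classical

namespace Pool.Agent.Lib.MP_89bcae_ag.Wt

universe u

variable {N : ℕ} {E : Type u} [Field E] {f : E[X]}

section

variable [hG : IsGood N f]

lemma natDegree_ne (N : ℕ) (f : E[X]) [hG : IsGood N f] : f.natDegree ≠ 0 := by
  intro h
  have h1 := hG.coprime
  rw [h, Nat.coprime_zero_left] at h1
  exact hG.one_lt.ne' h1

lemma f_ne_zero (N : ℕ) (f : E[X]) [hG : IsGood N f] : f ≠ 0 := by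
  intro h
  apply natDegree_ne N f
  rw [h, natDegree_zero]

lemma exists_root (N : ℕ) (f : E[X]) [hG : IsGood N f] : ∃ θ, f.eval θ = 0 := by
  have halg := hG.alg
  refine IsAlgClosed.exists_root f fun h => natDegree_ne N f ?_
  exact natDegree_eq_of_degree_eq_some (n := 0) h

/-- Multiplicities of a power. -/
private lemma w01_mult_pow {p : E[X]} (hp : p ≠ 0) (θ : E) (n : ℕ) :
    (p ^ n).rootMultiplicity θ = n * p.rootMultiplicity θ := by
  induction n with
  | zero => rw [pow_zero, Nat.zero_mul, ← C_1, rootMultiplicity_C]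
  | succ n ih =>
    rw [pow_succ, rootMultiplicity_mul (mul_ne_zero (pow_ne_zero _ hp) hp), ih, Nat.succ_mul]

/-- The exponent divides the degree of a norm. -/
private lemma w01_dvd (N : ℕ) (f : E[X]) [hG : IsGood N f] (c : RatFunc E) (d : ℕ)
    (hc : c ^ N = (algebraMap E[X] (RatFunc E) f) ^ d) : N ∣ d := by
  have hf := f_ne_zero N f
  obtain ⟨θ, hθ⟩ := exists_root N f
  have hcop := hG.mult θ hθ
  have hinj : Function.Injective (algebraMap E[X] (RatFunc E)) := IsFractionRing.injective E[X] (RatFunc E)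
  have hd0 : algebraMap E[X] (RatFunc E) c.denom ≠ 0 := by
    intro h
    exact c.denom_ne_zero (hinj (h.trans (map_zero _).symm))
  have h1 : c * algebraMap E[X] (RatFunc E) c.denom = algebraMap E[X] (RatFunc E) c.num := by
    have h2 := RatFunc.num_div_denom c
    rw [div_eq_iff hd0] at h2
    exact h2.symm
  have h3 : f ^ d * c.denom ^ N = c.num ^ N := by
    apply hinj
    rw [map_mul, map_pow, map_pow, map_pow, ← hc, ← mul_pow, h1]
  have hden : c.denom ≠ 0 := c.denom_ne_zero
  have hnum : c.num ≠ 0 := by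
    intro h
    rw [h, zero_pow hG.ne] at h3
    exact mul_ne_zero (pow_ne_zero _ hf) (pow_ne_zero _ hden) h3
  have h4 := congrArg (fun p : E[X] => p.rootMultiplicity θ) h3
  rw [rootMultiplicity_mul (mul_ne_zero (pow_ne_zero _ hf) (pow_ne_zero _ hden)),
    w01_mult_pow hf, w01_mult_pow hden, w01_mult_pow hnum] at h4
  have h5 : N ∣ d * f.rootMultiplicity θ := by
    have h6 : N ∣ d * f.rootMultiplicity θ + N * c.denom.rootMultiplicity θ := by
      rw [h4]
      exact dvd_mul_right _ _
    exact (Nat.dvd_add_left (dvd_mul_right _ _)).1 h6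
  exact (Nat.Coprime.symm hcop).dvd_of_dvd_mul_right h5

theorem irreducible_eqn (N : ℕ) (f : E[X]) [hG : IsGood N f] :
    Irreducible (X ^ N - C (algebraMap E[X] (RatFunc E) f) : (RatFunc E)[X]) := by
  set Q : (RatFunc E)[X] := X ^ N - C (algebraMap E[X] (RatFunc E) f) with hQ
  have hQd : Q.natDegree = N := natDegree_X_pow_sub_C
  have hQm : Q.Monic := monic_X_pow_sub_C _ hG.ne
  have hQu : ¬ IsUnit Q := by
    intro h
    have h1 := natDegree_eq_zero_of_isUnit h
    rw [hQd] at h1
    exact hG.ne h1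
  obtain ⟨P, hP, R, hR⟩ := WfDvdMonoid.exists_irreducible_factor hQu hQm.ne_zero
  have : Fact (Irreducible P) := ⟨hP⟩
  have hroot : (AdjoinRoot.root P) ^ N =
      algebraMap (RatFunc E) (AdjoinRoot P) (algebraMap E[X] (RatFunc E) f) := by
    have h1 : AdjoinRoot.mk P Q = 0 := by
      rw [hR, map_mul, AdjoinRoot.mk_self, zero_mul]
    rw [hQ, map_sub, map_pow, AdjoinRoot.mk_X, AdjoinRoot.mk_C, sub_eq_zero] at h1
    exact h1
  have hfin : Module.finrank (RatFunc E) (AdjoinRoot P) = P.natDegree := by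
    have h1 := (AdjoinRoot.powerBasis hP.ne_zero).finrank
    rwa [AdjoinRoot.powerBasis_dim] at h1
  have hnorm := congrArg (Algebra.norm (RatFunc E)) hroot
  rw [map_pow, Algebra.norm_algebraMap, hfin] at hnorm
  have hdvd := w01_dvd N f _ _ hnorm
  have hR0 : R ≠ 0 := by
    intro h
    rw [h, mul_zero] at hR
    exact hQm.ne_zero hR
  have hdeg : N = P.natDegree + R.natDegree := by
    rw [← hQd, hR, natDegree_mul hP.ne_zero hR0]
  have hPpos : 0 < P.natDegree := hP.natDegree_pos
  have hle := Nat.le_of_dvd hPpos hdvd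
  have hRd : R.natDegree = 0 := by omega
  have hRu : IsUnit R := by
    rw [eq_C_of_natDegree_eq_zero hRd, isUnit_C, isUnit_iff_ne_zero]
    intro h
    rw [eq_C_of_natDegree_eq_zero hRd, h, C_0] at hR0
    exact hR0 rfl
  have hass : Associated P Q := by
    rw [hR]
    exact (associated_mul_isUnit_right_iff hRu).2 (Associated.refl P)
  exact hass.irreducible hP

instance fact_irreducible :
    Fact (Irreducible (X ^ N - C (algebraMap E[X] (RatFunc E) f) : (RatFunc E)[X])) :=
  ⟨irreducible_eqn N f⟩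

/-- Expansion of an element of the function field. -/
lemma exists_expandF (a : FunField N f) :
    ∃ r : ℕ → RatFunc E, a = ∑ i ∈ Finset.range N, AdjoinRoot.of _ (r i) * yF ^ i := by
  obtain ⟨P, rfl⟩ := AdjoinRoot.mk_surjective a
  have hm : (X ^ N - C (algebraMap E[X] (RatFunc E) f) : (RatFunc E)[X]).Monic :=
    monic_X_pow_sub_C _ hG.ne
  have hd : (X ^ N - C (algebraMap E[X] (RatFunc E) f) : (RatFunc E)[X]).natDegree = N :=
    natDegree_X_pow_sub_C
  set Q : (RatFunc E)[X] := X ^ N - C (algebraMap E[X] (RatFunc E) f) with hQ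
  have hne : Q ≠ 1 := by
    intro h
    rw [h, natDegree_one] at hd
    exact hG.ne hd.symm
  have hlt : (P %ₘ Q).natDegree < N := by
    have h1 := natDegree_modByMonic_lt P hm hne
    rwa [hd] at h1
  refine ⟨fun i => (P %ₘ Q).coeff i, ?_⟩
  have h1 : AdjoinRoot.mk Q P = AdjoinRoot.mk Q (P %ₘ Q) := by
    rw [AdjoinRoot.mk_eq_mk]
    refine ⟨P /ₘ Q, ?_⟩
    have h2 := modByMonic_add_div P Q
    linear_combination -h2
  rw [h1]
  conv_lhs => rw [as_sum_range' _ N hlt]
  rw [map_sum]
  refine Finset.sum_congr rfl (fun i _ => ?_)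
  rw [← C_mul_X_pow_eq_monomial, map_mul, map_pow, AdjoinRoot.mk_C, AdjoinRoot.mk_X]
  rfl

/-- Uniqueness of the expansion. -/
lemma expandF_unique (r : ℕ → RatFunc E)
    (h : ∑ i ∈ Finset.range N, AdjoinRoot.of _ (r i) * (yF : FunField N f) ^ i = 0) :
    ∀ i < N, r i = 0 := by
  have hm : (X ^ N - C (algebraMap E[X] (RatFunc E) f) : (RatFunc E)[X]).Monic :=
    monic_X_pow_sub_C _ hG.ne
  have hd : (X ^ N - C (algebraMap E[X] (RatFunc E) f) : (RatFunc E)[X]).natDegree = N :=
    natDegree_X_pow_sub_C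
  have h1 : AdjoinRoot.mk (X ^ N - C (algebraMap E[X] (RatFunc E) f) : (RatFunc E)[X])
      (∑ i ∈ Finset.range N, C (r i) * X ^ i) = 0 := by
    rw [map_sum, ← h]
    refine Finset.sum_congr rfl (fun i _ => ?_)
    rw [map_mul, map_pow, AdjoinRoot.mk_C, AdjoinRoot.mk_X]
    rfl
  rw [AdjoinRoot.mk_eq_zero] at h1
  have hpos := hG.pos
  have hQ : (∑ i ∈ Finset.range N, C (r i) * X ^ i : (RatFunc E)[X]) = 0 := by
    by_contra hne
    refine hm.not_dvd_of_natDegree_lt hne ?_ h1
    rw [hd]
    have h3 : (∑ i ∈ Finset.range N, C (r i) * X ^ i : (RatFunc E)[X]).natDegree ≤ N - 1 := by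
      refine natDegree_sum_le_of_forall_le _ _ (fun i hi => ?_)
      refine (natDegree_C_mul_X_pow_le (r i) i).trans ?_
      have h4 := Finset.mem_range.1 hi
      omega
    omega
  intro i hi
  have h3 : (∑ i ∈ Finset.range N, C (r i) * X ^ i : (RatFunc E)[X]).coeff i = r i := by
    rw [finsetSum_coeff, Finset.sum_eq_single i]
    · rw [coeff_C_mul_X_pow, if_pos rfl]
    · intro j _ hj
      rw [coeff_C_mul_X_pow, if_neg (Ne.symm hj)]
    · intro h4
      exact absurd (Finset.mem_range.2 hi) h4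
  rw [← h3, hQ, coeff_zero]

lemma polyF_injective : Function.Injective (polyF : E[X] → FunField N f) := by
  intro p q h
  rw [polyF_eq, polyF_eq] at h
  exact IsFractionRing.injective E[X] (RatFunc E) ((AdjoinRoot.of _).injective h)

lemma polyF_ne_zero {p : E[X]} (hp : p ≠ 0) : (polyF p : FunField N f) ≠ 0 := by
  intro h
  exact hp (polyF_injective (N := N) (f := f) (h.trans (map_zero _).symm))

lemma yF_ne_zero : (yF : FunField N f) ≠ 0 := by
  intro h
  have h1 : (yF : FunField N f) ^ N = polyF f := yF_pow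
  rw [h, zero_pow hG.ne] at h1
  exact polyF_ne_zero (f_ne_zero N f) h1.symm

/-- Uniqueness of the expansion with polynomial coefficients. -/
lemma expand_unique (p : ℕ → E[X])
    (h : ∑ i ∈ Finset.range N, polyF (p i) * (yF : FunField N f) ^ i = 0) :
    ∀ i < N, p i = 0 := by
  intro i hi
  have h1 := expandF_unique (N := N) (f := f) (fun i => algebraMap E[X] (RatFunc E) (p i)) (by
    rw [← h]
    exact Finset.sum_congr rfl fun i _ => by rw [polyF_eq])
  have h2 := h1 i hi
  exact IsFractionRing.injective E[X] (RatFunc E) (h2.trans (map_zero _).symm)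

/-- Every function is the quotient of a polynomial in `x`, `y` by a polynomial in `x`. -/
lemma exists_den (a : FunField N f) : ∃ (p : ℕ → E[X]) (q : E[X]), q ≠ 0 ∧
    polyF q * a = ∑ i ∈ Finset.range N, polyF (p i) * yF ^ i := by
  obtain ⟨r, rfl⟩ := exists_expandF a
  obtain ⟨b, hb⟩ := IsLocalization.exist_integer_multiples (nonZeroDivisors E[X])
    (Finset.range N) r
  have hb2 : ∀ i, ∃ y : E[X], i ∈ Finset.range N →
      algebraMap E[X] (RatFunc E) y = (b : E[X]) • r i := by
    intro i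
    by_cases hi : i ∈ Finset.range N
    · obtain ⟨y, hy⟩ := hb i hi
      exact ⟨y, fun _ => hy⟩
    · exact ⟨0, fun h => absurd h hi⟩
  choose p hp using hb2
  refine ⟨p, b, nonZeroDivisors.ne_zero b.2, ?_⟩
  rw [Finset.mul_sum]
  refine Finset.sum_congr rfl fun i hi => ?_
  rw [polyF_eq, polyF_eq, hp i hi, Algebra.smul_def, map_mul, mul_assoc]

end

/-- Homomorphisms from the function field. -/
lemma funField_hom_ext {S : Type*} [CommRing S] {g h : FunField N f →+* S}
    (h1 : ∀ p, g (polyF p) = h (polyF p)) (h2 : g yF = h yF) : g = h := by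
  refine AdjoinRoot.ringHom_ext ?_ h2
  refine IsLocalization.ringHom_ext (nonZeroDivisors E[X]) ?_
  refine RingHom.ext fun p => ?_
  have h3 := h1 p
  rw [polyF_eq] at h3
  exact h3

end Pool.Agent.Lib.MP_89bcae_ag.Wt
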