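import Mathlib
import Pool.Agent.Lib.MP_89bcae_ag.Wt.W01

/-!
# The coordinate ring of the normalization is a Dedekind domain

ROW W02 (100-150 lines) = the lemmas of this file. `FunField N f` is an extension of degree `N` of
`RatFunc E`, separable as `N ≠ 0` in `E` (`X ^ N - C a`, `a ≠ 0`); then Mathlib:
`integralClosure.isDedekindDomain`, `IsIntegralClosure.isFractionRing_of_finite_extension`,
`IsIntegralClosure.isNoetherian` / `IsIntegralClosure.finite`.
`exists_poly_of_integral`: `E[x]` is integrally closed.
-/

open Polynomial IsDedekindDomain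

open scoped Classical

namespace Pool.Agent.Lib.MP_89bcae_ag.Wt

universe u

variable {N : ℕ} {E : Type u} [Field E] {f : E[X]} [hG : IsGood N f]

instance finiteDimensional_funField : FiniteDimensional (RatFunc E) (FunField N f) :=
  (monic_X_pow_sub_C (algebraMap E[X] (RatFunc E) f) hG.ne).finite_adjoinRoot

lemma finrank_funField : Module.finrank (RatFunc E) (FunField N f) = N := by
  have h := (AdjoinRoot.powerBasis'
    (monic_X_pow_sub_C (algebraMap E[X] (RatFunc E) f) hG.ne)).finrank
  rw [AdjoinRoot.powerBasis'_dim, natDegree_X_pow_sub_C] at h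
  exact h

instance isSeparable_funField : Algebra.IsSeparable (RatFunc E) (FunField N f) := by
  have ha : algebraMap E[X] (RatFunc E) f ≠ 0 := fun h =>
    f_ne_zero N f (IsFractionRing.injective E[X] (RatFunc E) (h.trans (map_zero _).symm))
  have hN : (N : RatFunc E) ≠ 0 := by
    intro h
    apply hG.ne_zero
    have h1 : algebraMap E (RatFunc E) (N : E) = 0 := by rw [map_natCast, h]
    exact (algebraMap E (RatFunc E)).injective (h1.trans (map_zero _).symm)
  have hsep : (X ^ N - C (algebraMap E[X] (RatFunc E) f) : (RatFunc E)[X]).Separable :=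
    separable_X_pow_sub_C _ hN ha
  have hs : IsSeparable (RatFunc E) (AdjoinRoot.root
      (X ^ N - C (algebraMap E[X] (RatFunc E) f) : (RatFunc E)[X])) := by
    refine hsep.of_dvd (minpoly.dvd _ _ ?_)
    rw [AdjoinRoot.aeval_eq, AdjoinRoot.mk_self]
  have h1 := IntermediateField.isSeparable_adjoin_simple_iff_isSeparable (RatFunc E)
    (FunField N f) |>.2 hs
  rw [IntermediateField.adjoin_root_eq_top] at h1
  exact (AlgEquiv.Algebra.isSeparable_iff IntermediateField.topEquiv).1 h1

instance isDedekindDomain_nring : IsDedekindDomain (NRing N f) :=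
  integralClosure.isDedekindDomain E[X] (RatFunc E) (FunField N f)

instance isFractionRing_nring : IsFractionRing (NRing N f) (FunField N f) :=
  integralClosure.isFractionRing_of_finite_extension (RatFunc E) (FunField N f)

instance finite_nring : Module.Finite E[X] (NRing N f) :=
  IsIntegralClosure.finite E[X] (RatFunc E) (FunField N f) (NRing N f)

lemma ofPoly_injective : Function.Injective (ofPoly : E[X] → NRing N f) := by
  intro p q h
  exact polyF_injective (N := N) (f := f) (congrArg (fun a : NRing N f => (a : FunField N f)) h)

/-- A rational function of `x` which is integral over `E[x]` is a polynomial. -/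
lemma exists_poly_of_integral (r : RatFunc E)
    (h : (AdjoinRoot.of _ r : FunField N f) ∈ integralClosure E[X] (FunField N f)) :
    ∃ p : E[X], (AdjoinRoot.of _ r : FunField N f) = polyF p := by
  have h1 : IsIntegral E[X] (algebraMap (RatFunc E) (FunField N f) r) := h
  have h2 : IsIntegral E[X] r :=
    (isIntegral_algebraMap_iff (algebraMap (RatFunc E) (FunField N f)).injective).1 h1
  obtain ⟨p, hp⟩ := (IsIntegrallyClosed.isIntegral_iff (R := E[X])).1 h2
  exact ⟨p, by rw [polyF_eq, hp]⟩

end Pool.Agent.Lib.MP_89bcae_ag.Wt
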