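import Mathlib
import Pool.Agent.Lib.MP_89bcae_ag.Wt.W02

/-!
# Points and maximal ideals of the coordinate ring (1)

ROW WP1 (150-200 lines) = the lemmas `exists_hom_of_prime`, `exists_hom` of this file.
PROOFS.
`exists_hom_of_prime`: `M ∩ E[x]` is a nonzero prime (`NRing` is integral over `E[x]`;
`Ideal.comap_ne_bot_of_integral_mem`, see `exists_pt_of_prime` in `Sup/R02.lean`), so it is `(x - a)`; `NRing / M`
is a finite extension of `E[x] / (x - a) = E` (`Module.Finite E[X] (NRing N f)`), so it is `E`: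
for every `c` in `NRing` there is a unique `φ c` in `E` with `c - ofPoly (C (φ c))` in `M`
(`R02_factor` in `Sup/R02.lean` applied to an integral equation of `c`; or: `NRing / M` is an algebraic
extension of the algebraically closed field `E`, `IsAlgClosed.algebraMap_bijective_of_isIntegral`).
`exists_hom`: there is a prime `M` over `(x - P.x)` (`Ideal.exists_ideal_over_maximal_of_isIntegral` or similar);
it gives `P'`, `φ'` with `P'.x = P.x`, so `P.y ^ N = P'.y ^ N`, `P.y = ζ P'.y` with `ζ ^ N = 1`; take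
`φ = φ' ∘ rotC ζ`.
-/

open Polynomial IsDedekindDomain

open scoped Classical

namespace Pool.Agent.Lib.MP_89bcae_ag.Wt

universe u

variable {N : ℕ} {E : Type u} [Field E] {f : E[X]} [hG : IsGood N f]

/-- a value of a nonzero polynomial in a prime ideal: one of the linear factors is in the ideal -/
lemma WP1_factor {E : Type u} [Field E] [IsAlgClosed E] {R : Type*} [CommRing R] (φ : E →+* R)
    {I : Ideal R} (hI : I.IsPrime) (r : R) : ∀ (n : ℕ) (q : E[X]), q.natDegree = n → q ≠ 0 →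
      eval₂ φ r q ∈ I → ∃ b, q.eval b = 0 ∧ r - φ b ∈ I := by
  intro n
  induction n with
  | zero =>
    intro q hn hq hmem
    exfalso
    rw [Polynomial.natDegree_eq_zero] at hn
    obtain ⟨c, rfl⟩ := hn
    have hc : c ≠ 0 := by
      rintro rfl
      exact hq C_0
    rw [eval₂_C] at hmem
    have hu : IsUnit (φ c) := (IsUnit.mk0 c hc).map φ
    exact hI.ne_top (Ideal.eq_top_of_isUnit_mem I hmem hu)
  | succ n ih =>
    intro q hn hq hmem
    obtain ⟨b, hb⟩ := IsAlgClosed.exists_root q (by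
      rw [Polynomial.degree_eq_natDegree hq, hn]
      exact_mod_cast Nat.succ_ne_zero n)
    obtain ⟨q', hq'⟩ := dvd_iff_isRoot.2 hb
    have hq'0 : q' ≠ 0 := by
      rintro rfl
      rw [mul_zero] at hq'
      exact hq hq'
    have hdeg : q'.natDegree = n := by
      have h1 := congrArg natDegree hq'
      rw [natDegree_mul (X_sub_C_ne_zero b) hq'0, natDegree_X_sub_C, hn] at h1
      omega
    rw [hq', eval₂_mul, eval₂_sub, eval₂_X, eval₂_C] at hmem
    rcases hI.mem_or_mem hmem with h1 | h1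
    · exact ⟨b, hb, h1⟩
    · obtain ⟨b', hb', hmem'⟩ := ih q' hdeg hq'0 h1
      refine ⟨b', ?_, hmem'⟩
      rw [hq', eval_mul, hb', mul_zero]

lemma WP1_abscissa (M : Ideal (NRing N f)) (hM : M.IsPrime) (h0 : M ≠ ⊥) :
    ∃ a : E, (ofPoly (X - C a) : NRing N f) ∈ M := by
  have halg : IsAlgClosed E := hG.alg
  obtain ⟨q, hq0, hqI⟩ : ∃ q : E[X], q ≠ 0 ∧ (ofPoly q : NRing N f) ∈ M := by
    obtain ⟨a, haI, ha0⟩ := Submodule.exists_mem_ne_zero_of_ne_bot h0
    have hint : IsIntegral E[X] a := Algebra.IsIntegral.isIntegral a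
    have h1 := Ideal.comap_ne_bot_of_integral_mem ha0 haI hint
    obtain ⟨q, hq, hq0⟩ := Submodule.exists_mem_ne_zero_of_ne_bot h1
    exact ⟨q, hq0, hq⟩
  have e1 : ∀ q : E[X], eval₂ ((ofPoly : E[X] →+* NRing N f).comp C) (ofPoly X) q = ofPoly q := by
    intro q
    rw [← Polynomial.hom_eval₂, eval₂_C_X]
  obtain ⟨a, _, ha⟩ := WP1_factor ((ofPoly : E[X] →+* NRing N f).comp C) hM (ofPoly X) _ q rfl hq0
    (by rw [e1]; exact hqI)
  refine ⟨a, ?_⟩
  rw [map_sub]
  exact ha

lemma WP1_mk (M : Ideal (NRing N f)) (a : E) (ha : (ofPoly (X - C a) : NRing N f) ∈ M) :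
    (Ideal.Quotient.mk M).comp ofPoly =
      (((Ideal.Quotient.mk M).comp ofPoly).comp C).comp (evalRingHom a) := by
  refine RingHom.ext fun p => ?_
  show Ideal.Quotient.mk M (ofPoly p) = Ideal.Quotient.mk M (ofPoly (C (p.eval a)))
  rw [Ideal.Quotient.eq, ← map_sub]
  obtain ⟨q, hq⟩ := X_sub_C_dvd_sub_C_eval (a := a) (p := p)
  rw [hq, map_mul]
  exact M.mul_mem_right _ ha

lemma WP1_value (M : Ideal (NRing N f)) (hM : M.IsPrime) (a : E)
    (ha : (ofPoly (X - C a) : NRing N f) ∈ M) (c : NRing N f) :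
    ∃ b : E, c - ofPoly (C b) ∈ M := by
  have halg : IsAlgClosed E := hG.alg
  obtain ⟨p, hp, hpc⟩ := (Algebra.IsIntegral.isIntegral c : IsIntegral E[X] c)
  have hne : p.map (evalRingHom a) ≠ 0 := (hp.map (evalRingHom a)).ne_zero
  have hmem : eval₂ ((ofPoly : E[X] →+* NRing N f).comp C) c (p.map (evalRingHom a)) ∈ M := by
    rw [← Ideal.Quotient.eq_zero_iff_mem, Polynomial.hom_eval₂, Polynomial.eval₂_map,
      ← RingHom.comp_assoc, ← WP1_mk M a ha, ← Polynomial.hom_eval₂]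
    have h1 : eval₂ (ofPoly : E[X] →+* NRing N f) c p = 0 := hpc
    rw [h1, map_zero]
  obtain ⟨b, _, hb⟩ := WP1_factor ((ofPoly : E[X] →+* NRing N f).comp C) hM c _ _ rfl hne hmem
  exact ⟨b, hb⟩

lemma exists_hom_of_prime (M : Ideal (NRing N f)) (hM : M.IsPrime) (h0 : M ≠ ⊥) :
    ∃ (P : Pt N f) (φ : NRing N f →+* E), RingHom.ker φ = M ∧
      (∀ p, φ (ofPoly p) = p.eval P.x) ∧ φ yy = P.y := by
  obtain ⟨a, ha⟩ := WP1_abscissa M hM h0
  have hnt : Nontrivial (NRing N f ⧸ M) := Ideal.Quotient.nontrivial_iff.2 hM.ne_top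
  set ψ : E →+* (NRing N f ⧸ M) := ((Ideal.Quotient.mk M).comp ofPoly).comp C with hψ
  have hbij : Function.Bijective ψ := by
    refine ⟨ψ.injective, ?_⟩
    intro z
    obtain ⟨c, rfl⟩ := Ideal.Quotient.mk_surjective z
    obtain ⟨b, hb⟩ := WP1_value M hM a ha c
    exact ⟨b, (Ideal.Quotient.eq.2 hb).symm⟩
  set e : E ≃+* (NRing N f ⧸ M) := RingEquiv.ofBijective ψ hbij with he
  have hval : ∀ b : E, e.symm (ψ b) = b := fun b => e.symm_apply_apply b
  have hpoly : ∀ p : E[X], e.symm (Ideal.Quotient.mk M (ofPoly p)) = p.eval a := by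
    intro p
    have h1 : Ideal.Quotient.mk M (ofPoly p) = ψ (p.eval a) :=
      congrArg (fun g : E[X] →+* (NRing N f ⧸ M) => g p) (WP1_mk M a ha)
    rw [h1, hval]
  set φ : NRing N f →+* E := (e.symm : (NRing N f ⧸ M) →+* E).comp (Ideal.Quotient.mk M) with hφ
  have hφp : ∀ p : E[X], φ (ofPoly p) = p.eval a := hpoly
  refine ⟨⟨a, φ yy, ?_⟩, φ, ?_, hφp, rfl⟩
  · rw [← map_pow, yy_pow, hφp]
  · ext c
    rw [RingHom.mem_ker]
    show e.symm (Ideal.Quotient.mk M c) = 0 ↔ c ∈ M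
    rw [map_eq_zero_iff e.symm e.symm.injective, Ideal.Quotient.eq_zero_iff_mem]

lemma exists_hom (P : Pt N f) :
    ∃ φ : NRing N f →+* E, (∀ p, φ (ofPoly p) = p.eval P.x) ∧ φ yy = P.y := by
  have hker : RingHom.ker (algebraMap E[X] (NRing N f)) = ⊥ :=
    (RingHom.injective_iff_ker_eq_bot _).1 (ofPoly_injective (N := N) (f := f))
  have hmax : (Ideal.span {(X - C P.x : E[X])}).IsMaximal :=
    PrincipalIdealRing.isMaximal_of_irreducible (irreducible_X_sub_C P.x)
  obtain ⟨M, hM, hcomap⟩ := Ideal.exists_ideal_over_maximal_of_isIntegral (S := NRing N f)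
    (Ideal.span {(X - C P.x : E[X])}) (by rw [hker]; exact bot_le)
  have hxM : (ofPoly (X - C P.x) : NRing N f) ∈ M := by
    have h1 : (X - C P.x : E[X]) ∈ M.comap (algebraMap E[X] (NRing N f)) := by
      rw [hcomap]
      exact Ideal.mem_span_singleton_self _
    exact h1
  have hM0 : M ≠ ⊥ := by
    intro h
    rw [h, Ideal.mem_bot] at hxM
    have h2 : (X - C P.x : E[X]) = 0 :=
      ofPoly_injective (N := N) (f := f) (by rw [hxM, map_zero])
    exact X_sub_C_ne_zero _ h2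
  obtain ⟨P', φ', hker', hp', hy'⟩ := exists_hom_of_prime M hM.isPrime hM0
  have hx : P'.x = P.x := by
    rw [← hker', RingHom.mem_ker, hp', eval_sub, eval_X, eval_C, sub_eq_zero] at hxM
    exact hxM
  have hpow : P.y ^ N = P'.y ^ N := by rw [P.eq, P'.eq, hx]
  obtain ⟨ζ, hζ, hζy⟩ : ∃ ζ : E, ζ ^ N = 1 ∧ ζ * P'.y = P.y := by
    by_cases h0 : P'.y = 0
    · refine ⟨1, one_pow N, ?_⟩
      rw [h0, zero_pow hG.ne] at hpow
      rw [h0, mul_zero]
      exact (eq_zero_of_pow_eq_zero hpow).symm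
    · refine ⟨P.y / P'.y, ?_, div_mul_cancel₀ _ h0⟩
      rw [div_pow, hpow, div_self (pow_ne_zero N h0)]
  refine ⟨φ'.comp (rotC ζ hζ), ?_, ?_⟩
  · intro p
    rw [RingHom.comp_apply, rotC_ofPoly, hp', hx]
  · rw [RingHom.comp_apply, rotC_yy, map_mul, hp', hy', eval_C, hζy]

/-- The value of a function of the coordinate ring at a point. -/
noncomputable def evalPt (P : Pt N f) : NRing N f →+* E := (exists_hom P).choose

@[simp] lemma evalPt_ofPoly (P : Pt N f) (p : E[X]) : evalPt P (ofPoly p) = p.eval P.x :=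
  (exists_hom P).choose_spec.1 p

@[simp] lemma evalPt_yy (P : Pt N f) : evalPt P yy = P.y := (exists_hom P).choose_spec.2

/-- The ideal of a point. -/
noncomputable def Pt.ideal (P : Pt N f) : Ideal (NRing N f) := RingHom.ker (evalPt P)

lemma mem_ideal (P : Pt N f) (a : NRing N f) : a ∈ P.ideal ↔ evalPt P a = 0 := Iff.rfl

lemma Pt.ideal_isMaximal (P : Pt N f) : P.ideal.IsMaximal := by
  refine RingHom.ker_isMaximal_of_surjective (evalPt P) ?_
  intro c
  exact ⟨ofPoly (C c), by rw [evalPt_ofPoly, eval_C]⟩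

lemma Pt.ideal_ne_bot (P : Pt N f) : P.ideal ≠ ⊥ := by
  intro h
  have h1 : (ofPoly (X - C P.x) : NRing N f) ∈ P.ideal := by
    rw [mem_ideal, evalPt_ofPoly, eval_sub, eval_X, eval_C, sub_self]
  rw [h, Ideal.mem_bot] at h1
  have h2 : (X - C P.x : E[X]) = 0 :=
    ofPoly_injective (N := N) (f := f) (by rw [h1, map_zero])
  exact X_sub_C_ne_zero _ h2

lemma Pt.ideal_injective : Function.Injective (Pt.ideal : Pt N f → Ideal (NRing N f)) := by
  intro P Q h
  have h1 : (ofPoly (X - C P.x) : NRing N f) ∈ P.ideal := by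
    rw [mem_ideal, evalPt_ofPoly, eval_sub, eval_X, eval_C, sub_self]
  have h2 : (yy - ofPoly (C P.y) : NRing N f) ∈ P.ideal := by
    rw [mem_ideal, map_sub, evalPt_yy, evalPt_ofPoly, eval_C, sub_self]
  rw [h, mem_ideal, evalPt_ofPoly, eval_sub, eval_X, eval_C, sub_eq_zero] at h1
  rw [h, mem_ideal, map_sub, evalPt_yy, evalPt_ofPoly, eval_C, sub_eq_zero] at h2
  exact Pt.ext h1.symm h2.symm


end Pool.Agent.Lib.MP_89bcae_ag.Wt
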