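import Mathlib
import Pool.Agent.Lib.MP_89bcae_ag.Wt.WP1

/-!
# Points and maximal ideals of the coordinate ring (2)
-/

open Polynomial IsDedekindDomain

open scoped Classical

set_option linter.deprecated false

set_option linter.unusedSectionVars false

namespace Pool.Agent.Lib.MP_89bcae_ag.Wt

universe u

variable {N : ℕ} {E : Type u} [Field E] {f : E[X]} [hG : IsGood N f]

/-- the prime of the line at `a` -/
noncomputable def wp2_p (a : E) : Ideal E[X] := Ideal.span {X - C a}

omit hG in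
lemma wp2_p_max (a : E) : (wp2_p a).IsMaximal :=
  PrincipalIdealRing.isMaximal_of_irreducible (irreducible_X_sub_C a)

omit hG in
lemma wp2_p_ne (a : E) : wp2_p a ≠ ⊥ := by
  unfold wp2_p
  rw [Ne, Ideal.span_singleton_eq_bot]
  exact X_sub_C_ne_zero a

lemma wp2_map (a : E) : Ideal.map (algebraMap E[X] (NRing N f)) (wp2_p a) =
    Ideal.span {(ofPoly (X - C a) : NRing N f)} := by
  unfold wp2_p
  rw [Ideal.map_span, Set.image_singleton]
  rfl

lemma wp2_ne_bot {a : E} {M : Ideal (NRing N f)}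
    (h : (ofPoly (X - C a) : NRing N f) ∈ M) : M ≠ ⊥ := by
  rintro rfl
  rw [Ideal.mem_bot] at h
  exact X_sub_C_ne_zero a (ofPoly_injective (N := N) (f := f) (by rw [h, map_zero]))

/-- a polynomial which is in a prime over `x - a` vanishes at `a` -/
lemma wp2_notMem {a : E} {M : Ideal (NRing N f)} (hM : M.IsPrime)
    (h : (ofPoly (X - C a) : NRing N f) ∈ M) {g : E[X]} (hg : g.eval a ≠ 0) :
    (ofPoly g : NRing N f) ∉ M := by
  intro hgM
  obtain ⟨q, hq⟩ := X_sub_C_dvd_sub_C_eval (a := a) (p := g)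
  have h1 : (ofPoly (C (g.eval a)) : NRing N f) ∈ M := by
    have e : (ofPoly (C (g.eval a)) : NRing N f) = ofPoly g - ofPoly (X - C a) * ofPoly q := by
      rw [← map_mul, ← hq, map_sub]
      ring
    rw [e]
    exact M.sub_mem hgM (M.mul_mem_right _ h)
  apply hM.ne_top
  rw [Ideal.eq_top_iff_one]
  have e : (1 : NRing N f) = ofPoly (C (g.eval a)⁻¹) * ofPoly (C (g.eval a)) := by
    rw [← map_mul, ← C_mul, inv_mul_cancel₀ hg, C_1, map_one]
  rw [e]
  exact M.mul_mem_left _ h1

lemma wp2_liesOver {a : E} {M : Ideal (NRing N f)} (hM : M.IsPrime)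
    (h : (ofPoly (X - C a) : NRing N f) ∈ M) : M.LiesOver (wp2_p a) := by
  refine ⟨?_⟩
  have := wp2_p_max a
  refine (this.eq_of_le ?_ ?_)
  · have := hM.comap (algebraMap E[X] (NRing N f))
    exact this.ne_top
  · unfold wp2_p
    rw [Ideal.span_singleton_le_iff_mem]
    exact h

/-- the primes over the point `a` of the line -/
noncomputable def wp2_S (N : ℕ) {E : Type u} [Field E] (f : E[X]) [hG : IsGood N f] (a : E) :
    Finset (Ideal (NRing N f)) :=
  IsDedekindDomain.primesOverFinset (wp2_p a) (NRing N f)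

instance wp2_torsionFree : Module.IsTorsionFree E[X] (NRing N f) :=
  Module.isTorsionFree_iff_algebraMap_injective.mpr (ofPoly_injective (N := N) (f := f))

lemma wp2_mem_iff {a : E} {M : Ideal (NRing N f)} :
    M ∈ wp2_S N f a ↔
      M.IsPrime ∧ (ofPoly (X - C a) : NRing N f) ∈ M := by
  have hmax := wp2_p_max a
  unfold wp2_S
  rw [IsDedekindDomain.mem_primesOverFinset_iff (wp2_p_ne a)]
  constructor
  · rintro ⟨h1, h2⟩
    refine ⟨h1, ?_⟩
    have h3 : (X - C a : E[X]) ∈ wp2_p a := Ideal.mem_span_singleton_self _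
    have h4 := h2.over
    rw [h4] at h3
    exact h3
  · rintro ⟨h1, h2⟩
    exact ⟨h1, wp2_liesOver h1 h2⟩

/-- the ramification index -/
noncomputable def wp2_e (a : E) (M : Ideal (NRing N f)) : ℕ :=
  Ideal.ramificationIdx' (wp2_p a) M

lemma wp2_e_pos {a : E} {M : Ideal (NRing N f)} (hM : M.IsPrime)
    (h : (ofPoly (X - C a) : NRing N f) ∈ M) : 0 < wp2_e a M := by
  have := wp2_liesOver hM h
  exact Nat.pos_of_ne_zero
    (Ideal.IsDedekindDomain.ramificationIdx'_ne_zero_of_liesOver M (wp2_p_ne a))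

lemma wp2_e_mem (a : E) (M : Ideal (NRing N f)) :
    (ofPoly (X - C a) : NRing N f) ∈ M ^ wp2_e a M := by
  have h := Ideal.le_pow_ramificationIdx' (p := wp2_p a) (P := M)
  rw [wp2_map] at h
  exact h (Ideal.mem_span_singleton_self _)

lemma wp2_le_e {a : E} {M : Ideal (NRing N f)} (hM : M.IsPrime)
    (_h : (ofPoly (X - C a) : NRing N f) ∈ M) {n : ℕ}
    (hn : (ofPoly (X - C a) : NRing N f) ∈ M ^ n) : n ≤ wp2_e a M := by
  have hne : Ideal.map (algebraMap E[X] (NRing N f)) (wp2_p a) ≠ ⊥ := by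
    rw [wp2_map, Ne, Ideal.span_singleton_eq_bot]
    intro h0
    exact X_sub_C_ne_zero a (ofPoly_injective (N := N) (f := f) (by rw [h0, map_zero]))
  have e := Ideal.IsDedekindDomain.ramificationIdx'_eq_multiplicity hne hM
  have hfin : FiniteMultiplicity M (Ideal.map (algebraMap E[X] (NRing N f)) (wp2_p a)) := by
    apply FiniteMultiplicity.of_not_isUnit
    · rw [Ideal.isUnit_iff]
      exact hM.ne_top
    · exact hne
  unfold wp2_e
  rw [e]
  refine hfin.le_multiplicity_of_pow_dvd ?_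
  rw [wp2_map, Ideal.dvd_span_singleton]
  exact hn

lemma wp2_sum (N : ℕ) {E : Type u} [Field E] (f : E[X]) [hG : IsGood N f] (a : E) :
    ∑ M ∈ wp2_S N f a,
      wp2_e a M * Ideal.inertiaDeg' (wp2_p a) M = N := by
  have hmax := wp2_p_max a
  have h := Ideal.sum_ramification_inertia (NRing N f) (RatFunc E) (FunField N f) (wp2_p_ne a)
  rw [finrank_funField] at h
  exact h

lemma wp2_inertia_pos {a : E} {M : Ideal (NRing N f)} (hM : M.IsPrime)
    (h : (ofPoly (X - C a) : NRing N f) ∈ M) : 0 < Ideal.inertiaDeg' (wp2_p a) M := by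
  have := wp2_liesOver hM h
  have := wp2_p_max a
  exact Ideal.inertiaDeg'_pos (wp2_p a) M

lemma wp2_term_pos {a : E} {M : Ideal (NRing N f)}
    (h : M ∈ wp2_S N f a) :
    1 ≤ wp2_e a M * Ideal.inertiaDeg' (wp2_p a) M := by
  obtain ⟨h1, h2⟩ := wp2_mem_iff.mp h
  exact Nat.mul_pos (wp2_e_pos h1 h2) (wp2_inertia_pos h1 h2)

lemma wp2_yy_ne : (yy : NRing N f) ≠ 0 := by
  intro h
  have h1 : (yy : NRing N f) ^ N = ofPoly f := yy_pow
  rw [h, zero_pow hG.ne] at h1
  exact f_ne_zero N f (ofPoly_injective (N := N) (f := f) (by rw [← h1, map_zero]))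

/-- At a root of `f` the ramification index is divisible by `N`. -/
lemma wp2_dvd {a : E} (ha : f.eval a = 0) {M : Ideal (NRing N f)} (hM : M.IsPrime)
    (h : (ofPoly (X - C a) : NRing N f) ∈ M) : N ∣ wp2_e a M := by
  let v : HeightOneSpectrum (NRing N f) := ⟨M, hM, wp2_ne_bot h⟩
  have hf0 := f_ne_zero N f
  set w := f.rootMultiplicity a with hw
  obtain ⟨g, hg1, hg2⟩ := exists_eq_pow_rootMultiplicity_mul_and_not_dvd f hf0 a
  have hga : g.eval a ≠ 0 := by
    intro h0
    exact hg2 (dvd_iff_isRoot.mpr h0)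
  have hvg : v.intValuation (ofPoly g : NRing N f) = 1 :=
    HeightOneSpectrum.intValuation_eq_one_iff.mpr (wp2_notMem hM h hga)
  have hpi0 : (ofPoly (X - C a) : NRing N f) ≠ 0 := by
    intro h0
    exact X_sub_C_ne_zero a (ofPoly_injective (N := N) (f := f) (by rw [h0, map_zero]))
  -- the valuation of `x - a`
  have hvpi : v.intValuation (ofPoly (X - C a) : NRing N f) =
      WithZero.exp (-(wp2_e a M : ℤ)) := by
    have e0 := v.intValuation_if_neg hpi0
    set c := (Associates.mk v.asIdeal).count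
      (Associates.mk (Ideal.span {(ofPoly (X - C a) : NRing N f)})).factors with hc
    have h1 : c ≤ wp2_e a M := by
      apply wp2_le_e hM h
      apply (v.intValuation_le_pow_iff_mem _ _).mp
      rw [e0]
    have h2 : wp2_e a M ≤ c := by
      have h3 := (v.intValuation_le_pow_iff_mem (ofPoly (X - C a) : NRing N f) (wp2_e a M)).mpr
        (wp2_e_mem a M)
      rw [e0, WithZero.exp_le_exp] at h3
      omega
    rw [e0, le_antisymm h1 h2]
  obtain ⟨k, hk⟩ : ∃ k : ℕ, v.intValuation (yy : NRing N f) = WithZero.exp (-(k : ℤ)) :=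
    ⟨_, v.intValuation_if_neg wp2_yy_ne⟩
  have h1 : (yy : NRing N f) ^ N = ofPoly (X - C a) ^ w * ofPoly g := by
    rw [yy_pow, ← map_pow, ← map_mul, ← hg1]
  have h2 := congrArg v.intValuation h1
  rw [map_pow, map_mul, map_pow, hk, hvpi, hvg, mul_one, ← WithZero.exp_nsmul,
    ← WithZero.exp_nsmul, WithZero.exp_inj] at h2
  have h3 : N * k = w * wp2_e a M := by
    have : (N : ℤ) * k = w * wp2_e a M := by
      simp only [nsmul_eq_mul] at h2
      linarith
    exact_mod_cast this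
  have h4 : N ∣ w * wp2_e a M := ⟨k, h3.symm⟩
  have h5 : Nat.Coprime N w := (hG.mult a ha).symm
  exact h5.dvd_of_dvd_mul_left h4

/-- the ramified case -/
lemma wp2_ram {a : E} (ha : f.eval a = 0) {M M' : Ideal (NRing N f)} (hM : M.IsPrime)
    (h : (ofPoly (X - C a) : NRing N f) ∈ M) (hM' : M'.IsPrime)
    (h' : (ofPoly (X - C a) : NRing N f) ∈ M') : M = M' ∧ wp2_e a M = N := by
  have hle : ∀ I : Ideal (NRing N f), I.IsPrime → (ofPoly (X - C a) : NRing N f) ∈ I →
      N ≤ wp2_e a I * Ideal.inertiaDeg' (wp2_p a) I := by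
    intro I hI hIa
    calc N ≤ wp2_e a I := Nat.le_of_dvd (wp2_e_pos hI hIa) (wp2_dvd ha hI hIa)
      _ ≤ _ := Nat.le_mul_of_pos_right _ (wp2_inertia_pos hI hIa)
  have hs := wp2_sum N f a
  have hmem : M ∈ wp2_S N f a := wp2_mem_iff.mpr ⟨hM, h⟩
  have hmem' : M' ∈ wp2_S N f a := wp2_mem_iff.mpr ⟨hM', h'⟩
  constructor
  · by_contra hne
    have h1 : ∑ I ∈ ({M, M'} : Finset (Ideal (NRing N f))),
        wp2_e a I * Ideal.inertiaDeg' (wp2_p a) I ≤ N := by
      refine le_trans ?_ hs.le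
      apply Finset.sum_le_sum_of_subset
      intro I hI
      rw [Finset.mem_insert, Finset.mem_singleton] at hI
      rcases hI with rfl | rfl
      · exact hmem
      · exact hmem'
    rw [Finset.sum_pair hne] at h1
    have h2 := hle M hM h
    have h3 := hle M' hM' h'
    have h4 := hG.pos
    omega
  · apply le_antisymm
    · calc wp2_e a M ≤ wp2_e a M * Ideal.inertiaDeg' (wp2_p a) M :=
            Nat.le_mul_of_pos_right _ (wp2_inertia_pos hM h)
        _ ≤ ∑ I ∈ wp2_S N f a,
              wp2_e a I * Ideal.inertiaDeg' (wp2_p a) I :=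
            Finset.single_le_sum (f := fun I => wp2_e a I * Ideal.inertiaDeg' (wp2_p a) I)
              (fun _ _ => Nat.zero_le _) hmem
        _ = N := hs
    · exact Nat.le_of_dvd (wp2_e_pos hM h) (wp2_dvd ha hM h)

/-- the unramified case -/
lemma wp2_unram (P : Pt N f) (hy : P.y ≠ 0) {M : Ideal (NRing N f)} (hM : M.IsPrime)
    (h : (ofPoly (X - C P.x) : NRing N f) ∈ M) :
    wp2_e P.x M = 1 ∧ ∃ (ζ : E) (hζ : ζ ^ N = 1),
      M = RingHom.ker ((evalPt P).comp (rotC ζ hζ)) := by
  have halg := hG.alg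
  have : NeZero (N : E) := ⟨hG.ne_zero⟩
  obtain ⟨ζ₀, hζ₀⟩ := HasEnoughRootsOfUnity.exists_primitiveRoot E N
  have hcard := hζ₀.card_nthRootsFinset
  have hroot : ∀ z : nthRootsFinset N (1 : E), (z : E) ^ N = 1 := fun z =>
    (mem_nthRootsFinset hG.pos 1).mp z.2
  let F : nthRootsFinset N (1 : E) → Ideal (NRing N f) := fun z =>
    RingHom.ker ((evalPt P).comp (rotC (z : E) (hroot z)))
  have hFinj : Function.Injective F := by
    intro z z' hzz
    have h1 : (yy - ofPoly (C ((z : E) * P.y)) : NRing N f) ∈ F z := by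
      show ((evalPt P).comp (rotC (z : E) (hroot z))) (yy - ofPoly (C ((z : E) * P.y))) = 0
      rw [RingHom.comp_apply, map_sub, rotC_yy, rotC_ofPoly, map_sub, map_mul, evalPt_ofPoly,
        evalPt_ofPoly, evalPt_yy, eval_C, eval_C, sub_self]
    rw [hzz] at h1
    have h2 : ((evalPt P).comp (rotC (z' : E) (hroot z'))) (yy - ofPoly (C ((z : E) * P.y))) = 0 :=
      h1
    rw [RingHom.comp_apply, map_sub, rotC_yy, rotC_ofPoly, map_sub, map_mul, evalPt_ofPoly,
      evalPt_ofPoly, evalPt_yy, eval_C, eval_C, sub_eq_zero] at h2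
    exact Subtype.ext (mul_right_cancel₀ hy h2).symm
  set T : Finset (Ideal (NRing N f)) := Finset.univ.image F with hT
  have hTcard : T.card = N := by
    rw [hT, Finset.card_image_of_injective _ hFinj, Finset.card_univ, Fintype.card_coe, hcard]
  have hTsub : T ⊆ wp2_S N f P.x := by
    intro I hI
    obtain ⟨z, -, rfl⟩ := Finset.mem_image.mp hI
    refine wp2_mem_iff.mpr ⟨RingHom.ker_isPrime _, ?_⟩
    show ((evalPt P).comp (rotC (z : E) (hroot z))) (ofPoly (X - C P.x)) = 0
    rw [RingHom.comp_apply, rotC_ofPoly, evalPt_ofPoly, eval_sub, eval_X, eval_C, sub_self]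
  have hs := wp2_sum N f P.x
  have hcle : (wp2_S N f P.x).card ≤ N := by
    have h1 : ∑ I ∈ wp2_S N f P.x, 1 ≤
        ∑ I ∈ wp2_S N f P.x,
          wp2_e P.x I * Ideal.inertiaDeg' (wp2_p P.x) I :=
      Finset.sum_le_sum fun I hI => wp2_term_pos hI
    rw [← Finset.card_eq_sum_ones] at h1
    exact h1.trans hs.le
  have hTeq : T = wp2_S N f P.x :=
    Finset.eq_of_subset_of_card_le hTsub (by rw [hTcard]; exact hcle)
  have hmem : M ∈ wp2_S N f P.x := wp2_mem_iff.mpr ⟨hM, h⟩
  constructor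
  · have hone : ∀ I ∈ wp2_S N f P.x,
        1 = wp2_e P.x I * Ideal.inertiaDeg' (wp2_p P.x) I := by
      apply (Finset.sum_eq_sum_iff_of_le (fun I hI => wp2_term_pos hI)).mp
      refine Eq.trans ?_ hs.symm
      rw [← Finset.card_eq_sum_ones, ← hTeq]
      exact hTcard
    have h1 := hone M hmem
    exact Nat.eq_one_of_mul_eq_one_right h1.symm
  · rw [← hTeq] at hmem
    obtain ⟨z, -, hz⟩ := Finset.mem_image.mp hmem
    exact ⟨z, hroot z, hz.symm⟩

lemma wp2_mem (P : Pt N f) : (ofPoly (X - C P.x) : NRing N f) ∈ P.ideal := by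
  rw [mem_ideal, evalPt_ofPoly, eval_sub, eval_X, eval_C, sub_self]

/-- There is only one prime with given values of `x`, `y`. -/
lemma ker_unique (P : Pt N f) (φ : NRing N f →+* E) (h1 : ∀ p, φ (ofPoly p) = p.eval P.x)
    (h2 : φ yy = P.y) : RingHom.ker φ = P.ideal := by
  have hm1 : (ofPoly (X - C P.x) : NRing N f) ∈ RingHom.ker φ := by
    show φ _ = 0
    rw [h1, eval_sub, eval_X, eval_C, sub_self]
  by_cases hy : P.y = 0
  · have ha : f.eval P.x = 0 := by rw [← P.eq, hy, zero_pow hG.ne]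
    exact (wp2_ram ha (RingHom.ker_isPrime φ) hm1 P.ideal_isMaximal.isPrime (wp2_mem P)).1
  · have key : ∀ ψ : NRing N f →+* E, (∀ p, ψ (ofPoly p) = p.eval P.x) → ψ yy = P.y →
        RingHom.ker ψ = RingHom.ker ((evalPt P).comp (rotC 1 (one_pow N))) := by
      intro ψ h3 h4
      have hm : (ofPoly (X - C P.x) : NRing N f) ∈ RingHom.ker ψ := by
        show ψ _ = 0
        rw [h3, eval_sub, eval_X, eval_C, sub_self]
      obtain ⟨-, ζ, hζ, hk⟩ := wp2_unram P hy (RingHom.ker_isPrime ψ) hm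
      have h5 : (yy - ofPoly (C P.y) : NRing N f) ∈ RingHom.ker ψ := by
        show ψ _ = 0
        rw [map_sub, h4, h3, eval_C, sub_self]
      rw [hk] at h5
      have h6 : ((evalPt P).comp (rotC ζ hζ)) (yy - ofPoly (C P.y)) = 0 := h5
      rw [RingHom.comp_apply, map_sub, rotC_yy, rotC_ofPoly, map_sub, map_mul, evalPt_ofPoly,
        evalPt_ofPoly, evalPt_yy, eval_C, eval_C, sub_eq_zero] at h6
      have h7 : ζ = 1 := mul_right_cancel₀ hy (by rw [h6, one_mul])
      subst h7
      exact hk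
    rw [key φ h1 h2]
    exact (key (evalPt P) (evalPt_ofPoly P) (evalPt_yy P)).symm

/-- The ramification indices over the line. -/
lemma ofPoly_sub_pow (P : Pt N f) :
    (P.y ≠ 0 → (ofPoly (X - C P.x) : NRing N f) ∉ P.ideal ^ 2) ∧
    (P.y = 0 → (ofPoly (X - C P.x) : NRing N f) ∈ P.ideal ^ N ∧
      (ofPoly (X - C P.x) : NRing N f) ∉ P.ideal ^ (N + 1)) := by
  have hp := P.ideal_isMaximal.isPrime
  have hm := wp2_mem P
  constructor
  · intro hy hcon
    have h1 := (wp2_unram P hy hp hm).1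
    have h2 := wp2_le_e hp hm hcon
    omega
  · intro hy
    have ha : f.eval P.x = 0 := by rw [← P.eq, hy, zero_pow hG.ne]
    have h1 := (wp2_ram ha hp hm hp hm).2
    constructor
    · have h2 := wp2_e_mem P.x P.ideal
      rwa [h1] at h2
    · intro hcon
      have h2 := wp2_le_e hp hm hcon
      omega

end Pool.Agent.Lib.MP_89bcae_ag.Wt
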