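import Mathlib
import Pool.Agent.Lib.MP_89bcae_ag.Wt.WP

/-!
ROW R03 (60-120 lines). Finiteness of the support of the divisor of a function; orders.

PROOF. `HeightOneSpectrum.Support` finiteness: for `h = a / b` with `a, b` in the coordinate ring
the valuation of `h` at `v` is different from `1` only if `v` divides `(a)` or `(b)`
(`Ideal.finite_factors`, `HeightOneSpectrum.valuation_lt_one_iff_dvd`,
`HeightOneSpectrum.Support.finite`), and `P ↦ P.hs` is injective.
-/

open Polynomial IsDedekindDomain

open scoped Classical

namespace Pool.Agent.Lib.MP_89bcae_ag.Wt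

universe u

variable {N : ℕ} {E : Type u} [Field E] {f : E[X]} [hG : IsGood N f]

/-- The point as a prime of the coordinate ring. -/
noncomputable def Pt.hs (P : Pt N f) : HeightOneSpectrum (NRing N f) where
  asIdeal := P.ideal
  isPrime := P.ideal_isMaximal.isPrime
  ne_bot := P.ideal_ne_bot

/-- The order of a nonzero function at a point. -/
noncomputable def ord (P : Pt N f) (h : (FunField N f)ˣ) : ℤ :=
  -(WithZero.log (P.hs.valuation (FunField N f) (h : FunField N f)))

lemma R03_hs_injective : Function.Injective (Pt.hs : Pt N f → HeightOneSpectrum (NRing N f)) := by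
  intro P Q h
  apply Pt.ideal_injective
  exact congrArg HeightOneSpectrum.asIdeal h

lemma R03_val_finite (h : (FunField N f)ˣ) :
    {v : HeightOneSpectrum (NRing N f) | v.valuation (FunField N f) (h : FunField N f) ≠ 1}.Finite := by
  have h1 := HeightOneSpectrum.Support.finite (NRing N f) (h : FunField N f)
  have h2 := HeightOneSpectrum.Support.finite (NRing N f) (((h⁻¹ : (FunField N f)ˣ)) : FunField N f)
  refine (h1.union h2).subset ?_
  intro v hv
  rcases lt_or_gt_of_ne (show v.valuation (FunField N f) (h : FunField N f) ≠ 1 from hv) with h3 | h3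
  · right
    show 1 < v.valuation (FunField N f) (((h⁻¹ : (FunField N f)ˣ)) : FunField N f)
    rw [Units.val_inv_eq_inv_val, map_inv₀]
    have h0 : v.valuation (FunField N f) (h : FunField N f) ≠ 0 :=
      (Valuation.ne_zero_iff _).mpr h.ne_zero
    exact (one_lt_inv₀ (zero_lt_iff.mpr h0)).mpr h3
  · left
    exact h3

lemma ord_finite (h : (FunField N f)ˣ) : (Function.support fun P => ord P h).Finite := by
  have h1 := R03_val_finite h
  refine (h1.preimage (f := Pt.hs) (R03_hs_injective.injOn)).subset ?_
  intro P hP
  show P.hs.valuation (FunField N f) (h : FunField N f) ≠ 1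
  intro h2
  apply hP
  show ord P h = 0
  unfold ord
  rw [h2, WithZero.log_one, neg_zero]

/-- The divisor of a nonzero function on the affine curve. -/
noncomputable def div (h : (FunField N f)ˣ) : Pt N f →₀ ℤ :=
  Finsupp.ofSupportFinite (fun P => ord P h) (ord_finite h)

@[simp] lemma div_apply (h : (FunField N f)ˣ) (P : Pt N f) : div h P = ord P h := rfl

/-- The class of a point. -/
noncomputable def clPt (P : Pt N f) : Jac N f :=
  Additive.ofMul (ClassGroup.equivPic (NRing N f) (ClassGroup.mk0
    ⟨P.ideal, mem_nonZeroDivisors_of_ne_zero P.ideal_ne_bot⟩))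

/-- The class of a divisor. -/
noncomputable def cl : (Pt N f →₀ ℤ) →+ Jac N f :=
  Finsupp.liftAddHom fun P => zmultiplesHom _ (clPt P)

end Pool.Agent.Lib.MP_89bcae_ag.Wt
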