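import Mathlib
import Pool.Agent.Lib.MP_89bcae_ag.Wt.W04

/-!
# The orders of `x - a` and of `y`, uniformizers at the ramified points
-/

open Polynomial IsDedekindDomain

open scoped Classical

namespace Pool.Agent.Lib.MP_89bcae_ag.Wt

universe u

section

/-- An inverse of `w` modulo `N`. -/
noncomputable def al (N w : ℕ) : ℕ :=
  if h : ∃ a b : ℕ, a * w = b * N + 1 then h.choose else 0

/-- The quotient of `al N w * w` by `N`. -/
noncomputable def be (N w : ℕ) : ℕ :=
  if h : ∃ a b : ℕ, a * w = b * N + 1 then h.choose_spec.choose else 0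

lemma al_mul {N w : ℕ} (hN : 1 < N) (h : w.Coprime N) : al N w * w = be N w * N + 1 := by
  have h1 : ∃ a b : ℕ, a * w = b * N + 1 := by
    obtain ⟨m, hm⟩ := Nat.exists_mul_mod_eq_one_of_coprime h hN
    refine ⟨m, w * m / N, ?_⟩
    have h2 := Nat.div_add_mod (w * m) N
    rw [hm.2, mul_comm N] at h2
    rw [mul_comm m, h2]
  unfold al be
  rw [dif_pos h1, dif_pos h1]
  exact h1.choose_spec.choose_spec

end

section

variable {E : Type u} [Field E]

/-- The multiplicity of the root `θ`. -/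
noncomputable def wt (f : E[X]) (θ : E) : ℕ := f.rootMultiplicity θ

/-- The polynomial `f(x) / (x - θ) ^ w(θ)`. -/
noncomputable def cofP (f : E[X]) (θ : E) : E[X] := f /ₘ (X - C θ) ^ wt f θ

/-- The value at `θ` of `f(x) / (x - θ) ^ w(θ)`. -/
noncomputable def cof (f : E[X]) (θ : E) : E := (cofP f θ).eval θ

lemma wt_mul (f : E[X]) (θ : E) : (X - C θ) ^ wt f θ * cofP f θ = f :=
  pow_mul_divByMonic_rootMultiplicity_eq f θ

lemma cof_ne_zero {f : E[X]} (hf : f ≠ 0) (θ : E) : cof f θ ≠ 0 :=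
  eval_divByMonic_pow_rootMultiplicity_ne_zero θ hf

lemma wt_map {E' : Type u} [Field E'] {f : E[X]} {f' : E'[X]} (σ : E →+* E') (h : f.map σ = f')
    (θ : E) : wt f' (σ θ) = wt f θ := by
  rw [← h]
  exact (eq_rootMultiplicity_map σ.injective θ).symm

lemma cofP_ne_zero {f : E[X]} (hf : f ≠ 0) (θ : E) : cofP f θ ≠ 0 := by
  intro h
  apply cof_ne_zero hf θ
  rw [cof, h, eval_zero]

end

variable {N : ℕ} {E : Type u} [Field E] {f : E[X]} [hG : IsGood N f]

lemma al_wt {θ : E} (hθ : f.eval θ = 0) : al N (wt f θ) * wt f θ = be N (wt f θ) * N + 1 :=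
  al_mul hG.one_lt (hG.mult θ hθ)

lemma algebraMap_ofPoly_ne_zero {p : E[X]} (hp : p ≠ 0) :
    algebraMap (NRing N f) (FunField N f) (ofPoly p) ≠ 0 := polyF_ne_zero hp

/-- The function `p(x)`, for a nonzero polynomial `p`. -/
noncomputable def polyU (p : E[X]) (hp : p ≠ 0) : (FunField N f)ˣ :=
  Units.mk0 (algebraMap (NRing N f) (FunField N f) (ofPoly p)) (algebraMap_ofPoly_ne_zero hp)

/-- The function `x - a`. -/
noncomputable def xs (a : E) : (FunField N f)ˣ := polyU (X - C a) (X_sub_C_ne_zero a)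

lemma algebraMap_yy_ne_zero : algebraMap (NRing N f) (FunField N f) yy ≠ 0 := yF_ne_zero

/-- The function `y`. -/
noncomputable def yU : (FunField N f)ˣ :=
  Units.mk0 (algebraMap (NRing N f) (FunField N f) yy) algebraMap_yy_ne_zero

lemma yU_pow : (yU : (FunField N f)ˣ) ^ N = polyU f (f_ne_zero N f) := by
  ext
  exact yF_pow

lemma polyU_mul {p q : E[X]} (hp : p ≠ 0) (hq : q ≠ 0) :
    (polyU (p * q) (mul_ne_zero hp hq) : (FunField N f)ˣ) = polyU p hp * polyU q hq := by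
  ext
  exact map_mul (polyF : E[X] →+* FunField N f) p q

lemma polyU_pow {p : E[X]} (hp : p ≠ 0) (n : ℕ) :
    (polyU (p ^ n) (pow_ne_zero n hp) : (FunField N f)ˣ) = polyU p hp ^ n := by
  ext
  exact map_pow (polyF : E[X] →+* FunField N f) p n

/-- the order of a function of the coordinate ring -/
private lemma R05_ord (P : Pt N f) (a : NRing N f) (u : (FunField N f)ˣ)
    (hu : (u : FunField N f) = algebraMap (NRing N f) (FunField N f) a) :
    ord P u = -(WithZero.log (P.hs.intValuation a)) := by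
  unfold ord
  rw [hu, HeightOneSpectrum.valuation_of_algebraMap]

private lemma R05_one (P : Pt N f) (a : NRing N f) (h : evalPt P a ≠ 0) :
    P.hs.intValuation a = 1 := by
  apply le_antisymm (P.hs.intValuation_le_one a)
  by_contra hlt
  rw [not_le] at hlt
  exact h ((P.hs.intValuation_lt_one_iff_mem a).mp hlt)

private lemma R05_mem (P : Pt N f) (a : NRing N f) (ha : a ≠ 0) (n : ℕ) :
    a ∈ P.ideal ^ n ↔ (n : ℤ) ≤ -(WithZero.log (P.hs.intValuation a)) := by
  have h1 := P.hs.intValuation_le_pow_iff_mem a n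
  have h0 : P.hs.intValuation a ≠ 0 := P.hs.intValuation_ne_zero a ha
  rw [show P.ideal ^ n = P.hs.asIdeal ^ n from rfl, ← h1, ← WithZero.log_le_iff_le_exp h0]
  constructor <;> intro h <;> linarith

lemma ord_polyU_of_ne (P : Pt N f) {p : E[X]} (hp : p ≠ 0) (h : p.eval P.x ≠ 0) :
    ord P (polyU p hp) = 0 := by
  rw [R05_ord P (ofPoly p) _ rfl, R05_one P _ (by rwa [evalPt_ofPoly])]
  simp

lemma ord_xs_of_ne (P : Pt N f) {a : E} (h : P.x ≠ a) : ord P (xs a) = 0 := by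
  apply ord_polyU_of_ne
  rw [eval_sub, eval_X, eval_C]
  exact sub_ne_zero.mpr h

private lemma R05_xs (P : Pt N f) (n : ℕ) :
    (ofPoly (X - C P.x) : NRing N f) ∈ P.ideal ^ n ↔ (n : ℤ) ≤ ord P (xs P.x) := by
  rw [R05_ord P (ofPoly (X - C P.x)) _ rfl, R05_mem]
  intro h
  exact X_sub_C_ne_zero P.x (ofPoly_injective (N := N) (f := f) (h.trans (map_zero _).symm))

lemma ord_xs_of_unramified (P : Pt N f) (h : P.y ≠ 0) : ord P (xs P.x) = 1 := by
  have h1 := (ofPoly_sub_pow P).1 h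
  have h2 : (ofPoly (X - C P.x) : NRing N f) ∈ P.ideal ^ 1 := by
    rw [pow_one, mem_ideal, evalPt_ofPoly, eval_sub, eval_X, eval_C, sub_self]
  rw [R05_xs] at h1 h2
  push_cast at h1 h2
  omega

lemma ord_xs_of_ramified (P : Pt N f) (h : P.y = 0) : ord P (xs P.x) = N := by
  obtain ⟨h1, h2⟩ := (ofPoly_sub_pow P).2 h
  rw [R05_xs] at h1 h2
  push_cast at h1 h2
  omega

lemma ord_yU_of_ne (P : Pt N f) (h : P.y ≠ 0) : ord P yU = 0 := by
  rw [R05_ord P yy _ rfl, R05_one P _ (by rwa [evalPt_yy])]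
  simp

lemma eval_of_y_eq_zero (P : Pt N f) (h : P.y = 0) : f.eval P.x = 0 := by
  rw [← P.eq, h, zero_pow hG.ne]

lemma ord_polyU_f (P : Pt N f) :
    ord P (polyU f (f_ne_zero N f)) = wt f P.x * ord P (xs P.x) := by
  have h1 : (polyU f (f_ne_zero N f) : (FunField N f)ˣ) =
      xs P.x ^ wt f P.x * polyU (cofP f P.x) (cofP_ne_zero (f_ne_zero N f) P.x) := by
    rw [xs, ← polyU_pow, ← polyU_mul]
    congr 1
    exact (wt_mul f P.x).symm
  rw [h1, ord_mul, ord_pow, ord_polyU_of_ne P _ (cof_ne_zero (f_ne_zero N f) P.x), add_zero]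

lemma ord_yU_of_ramified (P : Pt N f) (h : P.y = 0) : ord P yU = wt f P.x := by
  have h1 : ord P ((yU : (FunField N f)ˣ) ^ N) = wt f P.x * ord P (xs P.x) := by
    rw [yU_pow, ord_polyU_f]
  rw [ord_pow, ord_xs_of_ramified P h, mul_comm (wt f P.x : ℤ)] at h1
  exact mul_left_cancel₀ (by exact_mod_cast hG.ne) h1

/-- The uniformizer `y ^ α (x - θ) ^ (-β)` at the ramified point `(θ, 0)`. -/
noncomputable def unif (θ : E) : (FunField N f)ˣ :=
  yU ^ al N (wt f θ) * (xs θ ^ be N (wt f θ))⁻¹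

lemma unif_pow {θ : E} (hθ : f.eval θ = 0) : (unif θ : (FunField N f)ˣ) ^ N =
    polyU (cofP f θ) (cofP_ne_zero (f_ne_zero N f) θ) ^ al N (wt f θ) * xs θ := by
  have h1 : (polyU f (f_ne_zero N f) : (FunField N f)ˣ) =
      xs θ ^ wt f θ * polyU (cofP f θ) (cofP_ne_zero (f_ne_zero N f) θ) := by
    rw [xs, ← polyU_pow, ← polyU_mul]
    congr 1
    exact (wt_mul f θ).symm
  rw [unif, mul_pow, ← pow_mul, mul_comm (al N (wt f θ)), pow_mul, yU_pow, h1, mul_pow, ← pow_mul,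
    inv_pow, ← pow_mul, mul_comm (wt f θ), al_wt (N := N) hθ, pow_succ]
  generalize (xs θ : (FunField N f)ˣ) ^ (be N (wt f θ) * N) = A
  rw [mul_assoc A, mul_comm A, mul_inv_cancel_right, mul_comm]

lemma unif_pow_wt {θ : E} (hθ : f.eval θ = 0) : (unif θ : (FunField N f)ˣ) ^ wt f θ =
    yU * polyU (cofP f θ) (cofP_ne_zero (f_ne_zero N f) θ) ^ be N (wt f θ) := by
  have h1 : (polyU f (f_ne_zero N f) : (FunField N f)ˣ) =
      xs θ ^ wt f θ * polyU (cofP f θ) (cofP_ne_zero (f_ne_zero N f) θ) := by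
    rw [xs, ← polyU_pow, ← polyU_mul]
    congr 1
    exact (wt_mul f θ).symm
  rw [unif, mul_pow, ← pow_mul, al_wt (N := N) hθ, inv_pow, ← pow_mul, pow_succ, mul_comm (be N _) N,
    pow_mul, yU_pow, h1, mul_pow, ← pow_mul, mul_comm (wt f θ)]
  generalize (xs θ : (FunField N f)ˣ) ^ (be N (wt f θ) * wt f θ) = A
  rw [mul_assoc A, mul_assoc A, mul_comm A, inv_mul_cancel_right, mul_comm]

lemma ord_unif (P : Pt N f) (h : P.y = 0) : ord P (unif P.x) = 1 := by
  have h1 := al_wt (N := N) (eval_of_y_eq_zero P h)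
  rw [unif, ord_mul, ord_inv, ord_pow, ord_pow, ord_yU_of_ramified P h, ord_xs_of_ramified P h]
  have h2 : ((al N (wt f P.x) * wt f P.x : ℕ) : ℤ) = ((be N (wt f P.x) * N + 1 : ℕ) : ℤ) := by
    rw [h1]
  push_cast at h2
  linarith

lemma exists_unif {θ : E} (hθ : f.eval θ = 0) :
    ∃ a : NRing N f, algebraMap (NRing N f) (FunField N f) a = (unif θ : (FunField N f)ˣ) := by
  have h1 := congrArg (fun u : (FunField N f)ˣ => (u : FunField N f)) (unif_pow (N := N) hθ)
  have h2 : IsIntegral E[X] ((unif θ : (FunField N f)ˣ) : FunField N f) := by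
    refine ⟨X ^ N - C (cofP f θ ^ al N (wt f θ) * (X - C θ)), monic_X_pow_sub_C _ hG.ne, ?_⟩
    rw [eval₂_sub, eval₂_pow, eval₂_X, eval₂_C, sub_eq_zero]
    refine h1.trans ?_
    show (polyF (cofP f θ)) ^ al N (wt f θ) * polyF (X - C θ) = polyF _
    rw [map_mul, map_pow]
  exact ⟨⟨_, h2⟩, rfl⟩

end Pool.Agent.Lib.MP_89bcae_ag.Wt
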