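import Mathlib
import Pool.Agent.Lib.MP_89bcae_ag.Wt.W06

/-!
ROW R07 (80-160 lines). The automorphisms `y ↦ ζ y` and the automorphisms of the constant field.

PROOF. `rotC ζ` has the inverse `rotC ζ⁻¹`; check on `ofPoly p` and `yy`
(`AdjoinRoot.ringHom_ext`, or `exists_expand`). `evalPt P ∘ rotC ζ = evalPt (P.rot ζ)` (check on
generators), so `ord_autU` with `Q`, `P := Q.rot ζ` gives `ord Q (rot h) = ord (Q.rot ζ) h`.
For `σ : E ≃+* E` with `f.map σ = f`: `coordMap N σ` is bijective (inverse `coordMap N σ⁻¹`), and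
`evalPt (P.map σ) (coordMap σ a) = σ (evalPt P a)`.
-/

open Polynomial IsDedekindDomain

open scoped Classical

namespace Pool.Agent.Lib.MP_89bcae_ag.Wt

universe u

variable {N : ℕ} {E : Type u} [Field E] {f : E[X]} [hG : IsGood N f]

omit hG in
lemma R07_rotF_comp (ζ ξ : E) (hζ : ζ ^ N = 1) (hξ : ξ ^ N = 1) (h : ζ * ξ = 1) :
    (rotF ζ hζ : FunField N f →+* FunField N f).comp (rotF ξ hξ) = RingHom.id _ := by
  refine funField_hom_ext (fun p => ?_) ?_
  · rw [RingHom.comp_apply, rotF_polyF, rotF_polyF, RingHom.id_apply]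
  · rw [RingHom.comp_apply, rotF_yF, map_mul, rotF_polyF, rotF_yF, RingHom.id_apply, ← mul_assoc,
      ← map_mul, ← C_mul, mul_comm ξ ζ, h, C_1, map_one, one_mul]

omit hG in
lemma R07_funMap_comp (σ τ : E →+* E) (hσ : f.map σ = f) (hτ : f.map τ = f)
    (h : σ.comp τ = RingHom.id E) :
    (funMap N σ hσ : FunField N f →+* FunField N f).comp (funMap N τ hτ) = RingHom.id _ := by
  refine funField_hom_ext (fun p => ?_) ?_
  · rw [RingHom.comp_apply, funMap_polyF, funMap_polyF, RingHom.id_apply,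
      Polynomial.map_map, h, Polynomial.map_id]
  · rw [RingHom.comp_apply, funMap_yF, funMap_yF, RingHom.id_apply]

omit hG in
lemma R07_funMap_rotF (σ : E →+* E) (hσ : f.map σ = f) (ζ : E) (hζ : ζ ^ N = 1) (h : σ ζ = ζ) :
    (funMap N σ hσ : FunField N f →+* FunField N f).comp (rotF ζ hζ) =
      (rotF ζ hζ).comp (funMap N σ hσ) := by
  refine funField_hom_ext (fun p => ?_) ?_
  · rw [RingHom.comp_apply, RingHom.comp_apply, rotF_polyF, funMap_polyF, rotF_polyF]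
  · rw [RingHom.comp_apply, RingHom.comp_apply, rotF_yF, map_mul, funMap_polyF, funMap_yF,
      rotF_yF, Polynomial.map_C, h]

omit hG in
lemma R07_rotC_comp (ζ ξ : E) (hζ : ζ ^ N = 1) (hξ : ξ ^ N = 1) (h : ζ * ξ = 1) :
    (rotC ζ hζ : NRing N f →+* NRing N f).comp (rotC ξ hξ) = RingHom.id _ :=
  RingHom.ext fun a => Subtype.ext
    (RingHom.congr_fun (R07_rotF_comp ζ ξ hζ hξ h) (a : FunField N f))

omit hG in
lemma R07_coordMap_comp (σ τ : E →+* E) (hσ : f.map σ = f) (hτ : f.map τ = f)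
    (h : σ.comp τ = RingHom.id E) :
    (coordMap N σ hσ : NRing N f →+* NRing N f).comp (coordMap N τ hτ) = RingHom.id _ :=
  RingHom.ext fun a => Subtype.ext
    (RingHom.congr_fun (R07_funMap_comp σ τ hσ hτ h) (a : FunField N f))

/-- The automorphism `y ↦ ζ y` of the coordinate ring. -/
noncomputable def rotE (ζ : E) (hζ : ζ ^ N = 1) (h0 : ζ ≠ 0) : NRing N f ≃+* NRing N f :=
  RingEquiv.ofRingHom (rotC ζ hζ) (rotC ζ⁻¹ (by rw [inv_pow, hζ, inv_one]))
    (R07_rotC_comp _ _ _ _ (mul_inv_cancel₀ h0)) (R07_rotC_comp _ _ _ _ (inv_mul_cancel₀ h0))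

lemma evalPt_rotE (ζ : E) (hζ : ζ ^ N = 1) (h0 : ζ ≠ 0) (P : Pt N f) (a : NRing N f) :
    evalPt P (rotE ζ hζ h0 a) = evalPt (P.rot ζ hζ) a := evalPt_rotC ζ hζ P a

/-- The automorphisms of the field of constants which fix the coefficients of `f`. -/
def Sym (f : E[X]) : Subgroup (E ≃+* E) where
  carrier := {σ | f.map (σ : E →+* E) = f}
  mul_mem' {σ τ} hσ hτ := by
    have h1 : f.map (σ : E →+* E) = f := hσ
    have h2 : f.map (τ : E →+* E) = f := hτ
    change f.map ((σ * τ : E ≃+* E) : E →+* E) = f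
    have h3 : ((σ * τ : E ≃+* E) : E →+* E) = (σ : E →+* E).comp (τ : E →+* E) := by
      ext x
      rfl
    rw [h3, ← Polynomial.map_map, h2, h1]
  one_mem' := by
    change f.map ((1 : E ≃+* E) : E →+* E) = f
    have h3 : ((1 : E ≃+* E) : E →+* E) = RingHom.id E := by
      ext x
      rfl
    rw [h3, Polynomial.map_id]
  inv_mem' {σ} hσ := by
    have h1 : f.map (σ : E →+* E) = f := hσ
    change f.map ((σ⁻¹ : E ≃+* E) : E →+* E) = f
    have h3 : ((σ⁻¹ : E ≃+* E) : E →+* E).comp (σ : E →+* E) = RingHom.id E := by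
      ext x
      exact σ.symm_apply_apply x
    conv_lhs => rw [← h1]
    rw [Polynomial.map_map, h3, Polynomial.map_id]

lemma mem_Sym {σ : E ≃+* E} : σ ∈ Sym f ↔ f.map (σ : E →+* E) = f := Iff.rfl

/-- The automorphism of the coordinate ring induced by `σ`. -/
noncomputable def symE (N : ℕ) (σ : Sym f) : NRing N f ≃+* NRing N f :=
  RingEquiv.ofRingHom (coordMap N ((σ : E ≃+* E) : E →+* E) σ.2)
    (coordMap N (((σ⁻¹ : Sym f) : E ≃+* E) : E →+* E) (σ⁻¹).2)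
    (R07_coordMap_comp _ _ _ _ (by
      ext x
      exact (σ : E ≃+* E).apply_symm_apply x))
    (R07_coordMap_comp _ _ _ _ (by
      ext x
      exact (σ : E ≃+* E).symm_apply_apply x))

/-- The action of `Sym f` on the points. -/
def Pt.sym (σ : Sym f) (P : Pt N f) : Pt N f := P.map ((σ : E ≃+* E) : E →+* E) σ.2

lemma evalPt_symE (σ : Sym f) (P : Pt N f) (a : NRing N f) :
    evalPt (P.sym σ) (symE N σ a) = (σ : E ≃+* E) (evalPt P a) :=
  evalPt_coordMap ((σ : E ≃+* E) : E →+* E) σ.2 P a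

/-- `h(x, y) ↦ h(x, ζ y)`. -/
noncomputable def rotU (ζ : E) (hζ : ζ ^ N = 1) (h0 : ζ ≠ 0) : (FunField N f)ˣ ≃* (FunField N f)ˣ :=
  autU (rotE ζ hζ h0)

lemma ord_rotU (ζ : E) (hζ : ζ ^ N = 1) (h0 : ζ ≠ 0) (P : Pt N f) (u : (FunField N f)ˣ) :
    ord P (rotU ζ hζ h0 u) = ord (P.rot ζ hζ) u :=
  ord_autU (rotE ζ hζ h0) (P.rot ζ hζ) P (fun a => by rw [evalPt_rotE]) u

lemma R07_autU_mk (φ : NRing N f ≃+* NRing N f) (u : (FunField N f)ˣ) {a : NRing N f}
    (hu : (u : FunField N f) = algebraMap (NRing N f) (FunField N f) a) :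
    ((autU φ u : (FunField N f)ˣ) : FunField N f) = algebraMap (NRing N f) (FunField N f) (φ a) := by
  have h1 : ((autU φ u : (FunField N f)ˣ) : FunField N f) = autF φ (u : FunField N f) := rfl
  rw [h1, hu, autF_algebraMap]

lemma R07_cstU (c : Eˣ) : ((cstU c : (FunField N f)ˣ) : FunField N f) =
    algebraMap (NRing N f) (FunField N f) (ofPoly (C (c : E))) := rfl

lemma R07_polyU (p : E[X]) (hp : p ≠ 0) : ((polyU p hp : (FunField N f)ˣ) : FunField N f) =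
    algebraMap (NRing N f) (FunField N f) (ofPoly p) := rfl

lemma R07_yU : ((yU : (FunField N f)ˣ) : FunField N f) = algebraMap (NRing N f) (FunField N f) yy := rfl

omit hG in
lemma R07_rotE_ofPoly (ζ : E) (hζ : ζ ^ N = 1) (h0 : ζ ≠ 0) (p : E[X]) :
    rotE ζ hζ h0 (ofPoly p : NRing N f) = ofPoly p := rotC_ofPoly ζ hζ p

lemma R07_rotE_yy (ζ : E) (hζ : ζ ^ N = 1) (h0 : ζ ≠ 0) :
    rotE ζ hζ h0 (yy : NRing N f) = ofPoly (C ζ) * yy := rotC_yy ζ hζ

lemma rotU_cstU (ζ : E) (hζ : ζ ^ N = 1) (h0 : ζ ≠ 0) (c : Eˣ) :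
    rotU ζ hζ h0 (cstU c : (FunField N f)ˣ) = cstU c := by
  ext
  rw [rotU, R07_autU_mk (rotE ζ hζ h0) _ (R07_cstU c), R07_rotE_ofPoly, R07_cstU]

lemma rotU_polyU (ζ : E) (hζ : ζ ^ N = 1) (h0 : ζ ≠ 0) (p : E[X]) (hp : p ≠ 0) :
    rotU ζ hζ h0 (polyU p hp : (FunField N f)ˣ) = polyU p hp := by
  ext
  rw [rotU, R07_autU_mk (rotE ζ hζ h0) _ (R07_polyU p hp), R07_rotE_ofPoly, R07_polyU]

lemma rotU_yU (ζ : E) (hζ : ζ ^ N = 1) (h0 : ζ ≠ 0) :
    rotU ζ hζ h0 (yU : (FunField N f)ˣ) = cstU (Units.mk0 ζ h0) * yU := by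
  ext
  rw [rotU, R07_autU_mk (rotE ζ hζ h0) _ R07_yU, R07_rotE_yy, Units.val_mul, R07_cstU, R07_yU,
    map_mul]
  rfl

/-- The action of `Sym f` on the nonzero functions. -/
noncomputable def symU (σ : Sym f) : (FunField N f)ˣ ≃* (FunField N f)ˣ := autU (symE N σ)

lemma ord_symU (σ : Sym f) (P : Pt N f) (u : (FunField N f)ˣ) :
    ord (P.sym σ) (symU σ u) = ord P u :=
  ord_autU (symE N σ) P (P.sym σ) (fun a => by
    rw [evalPt_symE]
    exact EmbeddingLike.map_eq_zero_iff) u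

omit hG in
lemma R07_symE_ofPoly (σ : Sym f) (p : E[X]) :
    symE N σ (ofPoly p : NRing N f) = ofPoly (p.map ((σ : E ≃+* E) : E →+* E)) :=
  coordMap_ofPoly ((σ : E ≃+* E) : E →+* E) σ.2 p

lemma R07_symE_yy (σ : Sym f) : symE N σ (yy : NRing N f) = yy :=
  coordMap_yy ((σ : E ≃+* E) : E →+* E) σ.2

lemma symU_cstU (σ : Sym f) (c : Eˣ) :
    symU σ (cstU c : (FunField N f)ˣ) = cstU (Units.map ((σ : E ≃+* E) : E →* E) c) := by
  ext
  rw [symU, R07_autU_mk (symE N σ) _ (R07_cstU c), R07_symE_ofPoly, R07_cstU, Polynomial.map_C]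
  rfl

lemma symU_yU (σ : Sym f) : symU σ (yU : (FunField N f)ˣ) = yU := by
  ext
  rw [symU, R07_autU_mk (symE N σ) _ R07_yU, R07_symE_yy, R07_yU]

lemma symU_xs (σ : Sym f) (a : E) : symU σ (xs a : (FunField N f)ˣ) = xs ((σ : E ≃+* E) a) := by
  ext
  rw [symU, xs, xs, R07_autU_mk (symE N σ) _ (R07_polyU _ (X_sub_C_ne_zero a)), R07_symE_ofPoly,
    R07_polyU, Polynomial.map_sub, Polynomial.map_X, Polynomial.map_C]
  rfl

lemma symU_rotU (σ : Sym f) (ζ : E) (hζ : ζ ^ N = 1) (h0 : ζ ≠ 0)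
    (hσ : (σ : E ≃+* E) ζ = ζ) (u : (FunField N f)ˣ) :
    symU σ (rotU ζ hζ h0 u) = rotU ζ hζ h0 (symU σ u) := by
  have hcomm : ∀ a : NRing N f, symE N σ (rotE ζ hζ h0 a) = rotE ζ hζ h0 (symE N σ a) :=
    fun a => Subtype.ext (RingHom.congr_fun
      (R07_funMap_rotF ((σ : E ≃+* E) : E →+* E) σ.2 ζ hζ hσ) (a : FunField N f))
  ext
  obtain ⟨a, b, hb, hab⟩ := IsFractionRing.div_surjective (A := NRing N f) (u : FunField N f)
  change autF (symE N σ) (autF (rotE ζ hζ h0) (u : FunField N f)) =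
    autF (rotE ζ hζ h0) (autF (symE N σ) (u : FunField N f))
  rw [← hab]
  simp only [map_div₀, autF_algebraMap, hcomm]

end Pool.Agent.Lib.MP_89bcae_ag.Wt
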