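import Mathlib
import Pool.Agent.Lib.MP_89bcae_ag.Wt.W07

/-!
ROW R10 (150-250 lines). The norm of a function, computed from its divisor.

PROOF. Let `r = ∏ rot^i h`. It is fixed by `rot = rotU ζ` (`rot^N = 1`). Write `r = a / b`, `a`, `b`
in the coordinate ring, `b` in `E[x]` (multiply numerator and denominator by `∏_{0<i<N} rot^i b`:
the product `∏_{i<N} rot^i b` is fixed by `rot`, and an element `∑ pᵢ(x) yⁱ` of the coordinate ring
fixed by `rot` satisfies `ζ^i pᵢ = pᵢ`, so `pᵢ = 0` for `0 < i < N` (`expand_unique`), it is in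
`E[x]`). Then `a` is fixed by `rot` as well, so `a` is in `E[x]`. Since `E` is algebraically closed,
`a` and `b` are products of a constant and of linear factors (`IsAlgClosed.splits`), so
`r = c ∏_a (x - a)^{n_a}` for finitely many `a` and integers `n_a`. Take the order at a point `P`
with `P.x = a`: `ord P r = n_a` or `N n_a` according to `P.y ≠ 0` or `P.y = 0` (`ord_xs_...`). On the
other hand `ord P r = ∑_i ord (P.rot ζ^i) h` (`ord_rotU`), which is the sum of `div h` over all
points above `a` if `P.y ≠ 0` (the points `(a, ζ^i b)`, all different), and `N ord P h` if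
`P.y = 0`. So `n_a = ∑_{P.x = a} div h P`, i.e. `r = c · xprod (div h)`.
-/

open Polynomial IsDedekindDomain

open scoped Classical

namespace Pool.Agent.Lib.MP_89bcae_ag.Wt

universe u

variable {N : ℕ} {E : Type u} [Field E] {f : E[X]} [hG : IsGood N f]

/-- The function `∏ (x - x(P)) ^ D(P)`. -/
noncomputable def xprod (D : Pt N f →₀ ℤ) : (FunField N f)ˣ := D.prod fun P n => xs P.x ^ n

/-- The norm `∏_{i < N} h(x, ζ ^ i y)`. -/
noncomputable def nrm (ζ : E) (hζ : ζ ^ N = 1) (h0 : ζ ≠ 0) (h : (FunField N f)ˣ) : (FunField N f)ˣ :=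
  ∏ i ∈ Finset.range N, (rotU ζ hζ h0)^[i] h

omit hG in
lemma R10_rotE_apply (ζ : E) (hζ : ζ ^ N = 1) (h0 : ζ ≠ 0) (a : NRing N f) :
    rotE ζ hζ h0 a = rotC ζ hζ a := rfl

omit hG in
lemma R10_rotF_of (ζ : E) (hζ : ζ ^ N = 1) (r : RatFunc E) :
    rotF ζ hζ (AdjoinRoot.of _ r : FunField N f) = AdjoinRoot.of _ r := by
  unfold rotF
  exact AdjoinRoot.lift_of _

omit hG in
lemma R10_rotF_mul (ζ ξ : E) (hζ : ζ ^ N = 1) (hξ : ξ ^ N = 1) (h : (ζ * ξ) ^ N = 1)
    (a : FunField N f) : rotF ζ hζ (rotF ξ hξ a) = rotF (ζ * ξ) h a := by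
  have h1 : (rotF ζ hζ : FunField N f →+* FunField N f).comp (rotF ξ hξ) = rotF (ζ * ξ) h := by
    refine funField_hom_ext (fun p => ?_) ?_
    · rw [RingHom.comp_apply, rotF_polyF, rotF_polyF, rotF_polyF]
    · rw [RingHom.comp_apply, rotF_yF, map_mul, rotF_polyF, rotF_yF, rotF_yF, ← mul_assoc,
        ← map_mul, ← C_mul, mul_comm ξ ζ]
  exact RingHom.congr_fun h1 a

omit hG in
lemma R10_rotF_one (h : (1 : E) ^ N = 1) (a : FunField N f) : rotF 1 h a = a := by
  have h1 : (rotF 1 h : FunField N f →+* FunField N f) = RingHom.id _ := by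
    refine funField_hom_ext (fun p => ?_) ?_
    · rw [rotF_polyF, RingHom.id_apply]
    · rw [rotF_yF, C_1, map_one, one_mul, RingHom.id_apply]
  exact RingHom.congr_fun h1 a

omit hG in
lemma R10_rot_iter (ζ : E) (hζ : ζ ^ N = 1) (h0 : ζ ≠ 0) (n : ℕ) (hn : (ζ ^ n) ^ N = 1)
    (a : NRing N f) :
    (((rotE ζ hζ h0)^[n] a : NRing N f) : FunField N f) = rotF (ζ ^ n) hn (a : FunField N f) := by
  induction n with
  | zero =>
    rw [Function.iterate_zero, id]
    simp only [pow_zero]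
    exact (R10_rotF_one _ _).symm
  | succ n ih =>
    have hn' : (ζ ^ n) ^ N = 1 := by rw [← pow_mul, mul_comm, pow_mul, hζ, one_pow]
    rw [Function.iterate_succ_apply', R10_rotE_apply, coe_rotC, ih hn']
    have h2 : (ζ * ζ ^ n) ^ N = 1 := by rw [mul_pow, hζ, hn', one_mul]
    rw [R10_rotF_mul _ _ _ _ h2]
    congr 2
    rw [pow_succ, mul_comm]

omit hG in
lemma R10_rot_full (ζ : E) (hζ : ζ ^ N = 1) (h0 : ζ ≠ 0) (a : NRing N f) :
    (rotE ζ hζ h0)^[N] a = a := by
  have hn : (ζ ^ N) ^ N = 1 := by rw [hζ, one_pow]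
  apply Subtype.ext
  rw [R10_rot_iter ζ hζ h0 N hn]
  simp only [hζ]
  exact R10_rotF_one _ _

lemma R10_fix (ζ : E) (hζ : IsPrimitiveRoot ζ N) (h0 : ζ ≠ 0) (a : NRing N f)
    (ha : rotE ζ hζ.pow_eq_one h0 a = a) : ∃ p : E[X], a = ofPoly p := by
  obtain ⟨r, hr⟩ := exists_expandF (a : FunField N f)
  have ha' : rotF ζ hζ.pow_eq_one (a : FunField N f) = a :=
    congrArg (fun b : NRing N f => (b : FunField N f)) ha
  have h1 : ∑ i ∈ Finset.range N, AdjoinRoot.of _ (RatFunc.C (ζ ^ i - 1) * r i) *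
      (yF : FunField N f) ^ i = 0 := by
    have e1 : ∀ i ∈ Finset.range N, AdjoinRoot.of _ (RatFunc.C (ζ ^ i - 1) * r i) *
        (yF : FunField N f) ^ i = rotF ζ hζ.pow_eq_one (AdjoinRoot.of _ (r i) * yF ^ i) -
          AdjoinRoot.of _ (r i) * yF ^ i := by
      intro i _
      have e2 : (polyF (C ζ) : FunField N f) = AdjoinRoot.of _ (RatFunc.C ζ) := by
        rw [polyF_eq, RatFunc.algebraMap_C]
      rw [map_mul, map_mul, map_pow, R10_rotF_of, rotF_yF, e2, map_sub, map_pow, map_one, map_sub,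
        map_pow, map_one, mul_pow]
      ring
    rw [Finset.sum_congr rfl e1, Finset.sum_sub_distrib, ← map_sum, ← hr, ha', sub_self]
  have h2 := expandF_unique _ h1
  have h3 : ∀ i < N, i ≠ 0 → r i = 0 := by
    intro i hi hi0
    rcases mul_eq_zero.mp (h2 i hi) with h | h
    · exfalso
      have h4 : ζ ^ i - 1 = 0 := RatFunc.C_injective (h.trans (map_zero _).symm)
      have h6 := hζ.dvd_of_pow_eq_one i (sub_eq_zero.1 h4)
      have := Nat.le_of_dvd (Nat.pos_of_ne_zero hi0) h6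
      omega
    · exact h
  have h4 : (a : FunField N f) = AdjoinRoot.of _ (r 0) := by
    rw [hr, Finset.sum_eq_single 0]
    · rw [pow_zero, mul_one]
    · intro i hi hi0
      rw [h3 i (Finset.mem_range.1 hi) hi0, map_zero, zero_mul]
    · intro h
      exact absurd (Finset.mem_range.mpr hG.pos) h
  obtain ⟨p, hp⟩ := exists_poly_of_integral (N := N) (f := f) (r 0) (by rw [← h4]; exact a.2)
  exact ⟨p, Subtype.ext (h4.trans hp)⟩

lemma R10_autF_iter (φ : NRing N f ≃+* NRing N f) (n : ℕ) (a : NRing N f) :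
    (autF φ)^[n] (algebraMap (NRing N f) (FunField N f) a) =
      algebraMap (NRing N f) (FunField N f) (φ^[n] a) := by
  induction n with
  | zero => rfl
  | succ n ih => rw [Function.iterate_succ_apply', ih, autF_algebraMap,
      Function.iterate_succ_apply']

lemma R10_autF_div (φ : NRing N f ≃+* NRing N f) (n : ℕ) (x y : FunField N f) :
    (autF φ)^[n] (x / y) = (autF φ)^[n] x / (autF φ)^[n] y := by
  induction n with
  | zero => rfl
  | succ n ih => rw [Function.iterate_succ_apply', ih, map_div₀, Function.iterate_succ_apply',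
      Function.iterate_succ_apply']

lemma R10_autU_iter (φ : NRing N f ≃+* NRing N f) (n : ℕ) (u : (FunField N f)ˣ) :
    (((autU φ)^[n] u : (FunField N f)ˣ) : FunField N f) = (autF φ)^[n] (u : FunField N f) := by
  induction n with
  | zero => rfl
  | succ n ih =>
    rw [Function.iterate_succ_apply', Function.iterate_succ_apply', ← ih]
    rfl

lemma R10_rotU_full (ζ : E) (hζ : ζ ^ N = 1) (h0 : ζ ≠ 0) (u : (FunField N f)ˣ) :
    (rotU ζ hζ h0)^[N] u = u := by
  apply Units.ext
  unfold rotU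
  rw [R10_autU_iter]
  obtain ⟨a, b, _, hab⟩ := IsFractionRing.div_surjective (A := NRing N f) (u : FunField N f)
  rw [← hab, R10_autF_div, R10_autF_iter, R10_autF_iter, R10_rot_full, R10_rot_full]

lemma R10_nrm_rot (ζ : E) (hζ : ζ ^ N = 1) (h0 : ζ ≠ 0) (u : (FunField N f)ˣ) :
    rotU ζ hζ h0 (nrm ζ hζ h0 u) = nrm ζ hζ h0 u := by
  unfold nrm
  rw [map_prod]
  have h1 : ∏ i ∈ Finset.range N, rotU ζ hζ h0 ((rotU ζ hζ h0)^[i] u) =
      ∏ i ∈ Finset.range N, (rotU ζ hζ h0)^[i + 1] u := by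
    apply Finset.prod_congr rfl
    intro i _
    rw [Function.iterate_succ_apply']
  rw [h1]
  have h2 : (∏ i ∈ Finset.range N, (rotU ζ hζ h0)^[i + 1] u) * (rotU ζ hζ h0)^[0] u =
      (∏ i ∈ Finset.range N, (rotU ζ hζ h0)^[i] u) * (rotU ζ hζ h0)^[N] u := by
    rw [← Finset.prod_range_succ, ← Finset.prod_range_succ' (fun i => (rotU ζ hζ h0)^[i] u)]
  rw [R10_rotU_full, Function.iterate_zero, id] at h2
  exact mul_right_cancel h2

lemma R10_xprod_rot (ζ : E) (hζ : ζ ^ N = 1) (h0 : ζ ≠ 0) (D : Pt N f →₀ ℤ) :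
    rotU ζ hζ h0 (xprod D) = xprod D := by
  unfold xprod Finsupp.prod
  rw [map_prod]
  apply Finset.prod_congr rfl
  intro P _
  rw [map_zpow]
  congr 1
  exact rotU_polyU ζ hζ h0 _ _

lemma R10_integral (w : (FunField N f)ˣ) (hw : ∀ P, 0 ≤ ord P w) :
    ∃ a : NRing N f, algebraMap (NRing N f) (FunField N f) a = (w : FunField N f) := by
  have h1 := HeightOneSpectrum.mem_integers_of_valuation_le_one (R := NRing N f) (FunField N f)
    (w : FunField N f) (by
      intro v
      obtain ⟨P, hP⟩ := exists_pt_of_prime v.asIdeal v.isPrime v.ne_bot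
      have hv : v = P.hs := HeightOneSpectrum.ext hP.symm
      rw [hv]
      have h2 := hw P
      unfold ord at h2
      have h3 := WithZero.le_exp_of_log_le (show WithZero.log
        (P.hs.valuation (FunField N f) (w : FunField N f)) ≤ 0 by linarith)
      simpa using h3)
  obtain ⟨a, ha⟩ := h1
  exact ⟨a, ha⟩

lemma R10_ord_prod {ι : Type*} (P : Pt N f) (s : Finset ι) (g : ι → (FunField N f)ˣ) :
    ord P (∏ i ∈ s, g i) = ∑ i ∈ s, ord P (g i) := by
  induction s using Finset.induction_on with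
  | empty => simp [ord_one]
  | insert i s hi ih => rw [Finset.prod_insert hi, Finset.sum_insert hi, ord_mul, ih]

lemma R10_ord_rot_iter (ζ : E) (hζ : ζ ^ N = 1) (h0 : ζ ≠ 0) (P : Pt N f) (n : ℕ)
    (u : (FunField N f)ˣ) :
    ord P ((rotU ζ hζ h0)^[n] u) =
      ord (P.rot (ζ ^ n) (by rw [← pow_mul, mul_comm, pow_mul, hζ, one_pow])) u := by
  induction n generalizing u with
  | zero =>
    rw [Function.iterate_zero, id]
    congr 1
    ext
    · rfl
    · simp [Pt.rot]
  | succ n ih =>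
    rw [Function.iterate_succ_apply, ih, ord_rotU]
    congr 1
    ext
    · rfl
    · simp only [Pt.rot]
      rw [pow_succ]
      ring

lemma R10_ord_nrm (ζ : E) (hζ : IsPrimitiveRoot ζ N) (h0 : ζ ≠ 0) (h : (FunField N f)ˣ)
    (P : Pt N f) : ord P (nrm ζ hζ.pow_eq_one h0 h) = ord P (xprod (div h)) := by
  have hN0 : N ≠ 0 := hG.ne
  have : NeZero N := ⟨hN0⟩
  unfold nrm xprod Finsupp.prod
  rw [R10_ord_prod, R10_ord_prod]
  simp only [ord_zpow, R10_ord_rot_iter, div_apply]
  by_cases hy : P.y = 0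
  · have h1 : ∀ i ∈ Finset.range N, ord (P.rot (ζ ^ i)
        (by rw [← pow_mul, mul_comm, pow_mul, hζ.pow_eq_one, one_pow])) h = ord P h := by
      intro i _
      congr 1
      ext
      · rfl
      · simp [Pt.rot, hy]
    rw [Finset.sum_congr rfl h1, Finset.sum_const, Finset.card_range, nsmul_eq_mul]
    have h2 : ∀ Q ∈ (div h).support, ord Q h * ord P (xs Q.x) =
        if Q = P then ord P h * N else 0 := by
      intro Q _
      by_cases hQ : Q = P
      · rw [if_pos hQ, hQ, ord_xs_of_ramified P hy]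
      · rw [if_neg hQ]
        have hx : P.x ≠ Q.x := by
          intro hx
          apply hQ
          ext
          · exact hx.symm
          · have h3 := Q.eq
            rw [← hx, ← P.eq, hy, zero_pow hN0] at h3
            rw [hy]
            exact pow_eq_zero_iff hN0 |>.mp h3
        rw [ord_xs_of_ne P hx, mul_zero]
    rw [Finset.sum_congr rfl h2, Finset.sum_ite_eq']
    split_ifs with h3
    · ring
    · rw [Finsupp.mem_support_iff, not_not, div_apply] at h3
      rw [h3]
      ring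
  · have h2 : ∀ Q ∈ (div h).support, ord Q h * ord P (xs Q.x) =
        if Q.x = P.x then ord Q h else 0 := by
      intro Q _
      by_cases hQ : Q.x = P.x
      · rw [if_pos hQ, hQ, ord_xs_of_unramified P hy, mul_one]
      · rw [if_neg hQ, ord_xs_of_ne P (Ne.symm hQ), mul_zero]
    rw [Finset.sum_congr rfl h2, ← Finset.sum_filter]
    set q : ℕ → Pt N f := fun i => P.rot (ζ ^ i)
      (by rw [← pow_mul, mul_comm, pow_mul, hζ.pow_eq_one, one_pow]) with hq
    have hinj : Set.InjOn q (Finset.range N : Set ℕ) := by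
      intro i hi j hj hij
      rw [Finset.coe_range, Set.mem_Iio] at hi hj
      have h3 : ζ ^ i * P.y = ζ ^ j * P.y := congrArg Pt.y hij
      exact hζ.pow_inj hi hj (mul_right_cancel₀ hy h3)
    have h4 : ∑ i ∈ Finset.range N, ord (q i) h =
        ∑ Q ∈ (Finset.range N).image q, ord Q h := by
      rw [Finset.sum_image hinj]
    rw [h4]
    symm
    apply Finset.sum_subset
    · intro Q hQ
      rw [Finset.mem_filter] at hQ
      have h5 : (Q.y / P.y) ^ N = 1 := by
        rw [div_pow, Q.eq, P.eq, hQ.2, div_self]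
        rw [← P.eq]
        exact pow_ne_zero N hy
      obtain ⟨i, hi, he⟩ := hζ.eq_pow_of_pow_eq_one h5
      rw [Finset.mem_image]
      refine ⟨i, Finset.mem_range.mpr hi, ?_⟩
      ext
      · exact hQ.2.symm
      · simp only [hq, Pt.rot]
        rw [he, div_mul_cancel₀ _ hy]
    · intro Q hQ hQ'
      rw [Finset.mem_image] at hQ
      obtain ⟨i, _, rfl⟩ := hQ
      by_contra h6
      apply hQ'
      rw [Finset.mem_filter, Finsupp.mem_support_iff, div_apply]
      exact ⟨h6, rfl⟩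

lemma exists_nrm_eq (ζ : E) (hζ : IsPrimitiveRoot ζ N) (h0 : ζ ≠ 0) (h : (FunField N f)ˣ) :
    ∃ c : Eˣ, nrm ζ hζ.pow_eq_one h0 h = cstU c * xprod (div h) := by
  set w : (FunField N f)ˣ := nrm ζ hζ.pow_eq_one h0 h * (xprod (div h))⁻¹ with hw
  have hord : ∀ P, ord P w = 0 := by
    intro P
    rw [hw, ord_mul, ord_inv, R10_ord_nrm ζ hζ h0 h P]
    ring
  have hrot : rotU ζ hζ.pow_eq_one h0 w = w := by
    rw [hw, map_mul, map_inv, R10_nrm_rot, R10_xprod_rot]
  obtain ⟨a, ha⟩ := R10_integral w (fun P => (hord P).ge)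
  obtain ⟨b, hb⟩ := R10_integral w⁻¹ (fun P => by rw [ord_inv, hord P, neg_zero])
  have hinj : Function.Injective (algebraMap (NRing N f) (FunField N f)) :=
    IsFractionRing.injective (NRing N f) (FunField N f)
  have hab : a * b = 1 := by
    apply hinj
    rw [map_mul, ha, hb, map_one]
    exact w.mul_inv
  have hfix : ∀ (v : (FunField N f)ˣ) (c : NRing N f), algebraMap (NRing N f) (FunField N f) c = (v : FunField N f) →
      rotU ζ hζ.pow_eq_one h0 v = v → rotE ζ hζ.pow_eq_one h0 c = c := by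
    intro v c hc hv
    apply hinj
    rw [← autF_algebraMap, hc]
    have h1 := congrArg (fun z : (FunField N f)ˣ => (z : FunField N f)) hv
    exact h1
  obtain ⟨p, hp⟩ := R10_fix ζ hζ h0 a (hfix w a ha hrot)
  obtain ⟨q, hq⟩ := R10_fix ζ hζ h0 b (hfix w⁻¹ b hb (by rw [map_inv, hrot]))
  have hpq : p * q = 1 := by
    apply ofPoly_injective (N := N) (f := f)
    rw [map_mul, ← hp, ← hq, hab, map_one]
  have hunit : IsUnit p := IsUnit.of_mul_eq_one q hpq
  obtain ⟨c, hc, hcp⟩ := Polynomial.isUnit_iff.mp hunit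
  refine ⟨hc.unit, ?_⟩
  have hwc : w = cstU hc.unit := by
    apply Units.ext
    rw [← ha, hp, ← hcp]
    rfl
  rw [← hwc, hw, inv_mul_cancel_right]

lemma nrm_mul (ζ : E) (hζ : ζ ^ N = 1) (h0 : ζ ≠ 0) (h h' : (FunField N f)ˣ) :
    nrm ζ hζ h0 (h * h') = nrm ζ hζ h0 h * nrm ζ hζ h0 h' := by
  unfold nrm
  rw [← Finset.prod_mul_distrib]
  apply Finset.prod_congr rfl
  intro i _
  exact iterate_map_mul (rotU ζ hζ h0) i h h'

lemma nrm_cstU (ζ : E) (hζ : ζ ^ N = 1) (h0 : ζ ≠ 0) (c : Eˣ) :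
    nrm ζ hζ h0 (cstU c : (FunField N f)ˣ) = cstU (c ^ N) := by
  unfold nrm
  have h1 : ∀ i ∈ Finset.range N, (rotU ζ hζ h0)^[i] (cstU c : (FunField N f)ˣ) = cstU c := by
    intro i _
    exact Function.iterate_fixed (rotU_cstU ζ hζ h0 c) i
  rw [Finset.prod_congr rfl h1, Finset.prod_const, Finset.card_range, map_pow]

lemma xprod_add (D D' : Pt N f →₀ ℤ) : xprod (D + D') = xprod D * xprod D' := by
  unfold xprod
  exact Finsupp.prod_add_index' (fun _ => zpow_zero _) (fun _ _ _ => zpow_add _ _ _)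

lemma xprod_rot (ζ : E) (hζ : ζ ^ N = 1) (D : Pt N f →₀ ℤ) :
    xprod (D.mapDomain (Pt.rot ζ hζ)) = xprod D := by
  unfold xprod
  rw [Finsupp.prod_mapDomain_index (fun _ => zpow_zero _) (fun _ _ _ => zpow_add _ _ _)]
  rfl

lemma symU_xprod (σ : Sym f) (D : Pt N f →₀ ℤ) :
    symU σ (xprod D) = xprod (D.mapDomain (Pt.sym σ)) := by
  unfold xprod
  rw [Finsupp.prod_mapDomain_index (fun _ => zpow_zero _) (fun _ _ _ => zpow_add _ _ _)]
  unfold Finsupp.prod
  rw [map_prod]
  apply Finset.prod_congr rfl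
  intro P _
  rw [map_zpow, symU_xs]
  rfl

end Pool.Agent.Lib.MP_89bcae_ag.Wt
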