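import Mathlib
import Pool.Agent.Lib.MP_89bcae_ag.Wt.WC
import Pool.Agent.Lib.MP_89bcae_ag.Wt.W12a
import Pool.Agent.Lib.MP_89bcae_ag.Wt.W10

/-!
ROW R12 (200-350 lines). `a - x` is a norm (an explicit form of Tsen's theorem).

STATEMENT: for every `a` in `E` there is a function `h` with `∏_{i<N} h(x, ζ^i y) = x - a`.

PROOF. `V = E(z)`, `z` a variable, is a vector space of dimension `N` over its subfield
`E(x)`, `x := a - z^N`, with basis `1, z, ..., z^(N-1)`. Let `s` be the `E`-automorphism `z ↦ ζ z`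
of `V`; it fixes `x`. Write `f = c ∏_i (X - r_i)` (roots `r_i`), `s_i^N = a - r_i`, `d^N = c`,
`H = d ∏_i (s_i - z)` in `V`. As `∏_{j<N} (s_i - ζ^j z) = s_i^N - z^N = x - r_i`, we have
`∏_{j<N} s^j(H) = f(x)`. So `Y : V → V, v ↦ H s(v)`, which is `E(x)`-linear, satisfies
`Y^N = f(x)` and `V` becomes a vector space over `K = E(x)(y)` with `y v = Y(v)`, of dimension
`1` (as `[K : E(x)] = N`; only needed: `u ↦ u · 1` from `K` to `V` is injective (`K` is a field) and
`E(x)`-linear between spaces of the same dimension `N`, so bijective). Let `h` in `K` with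
`h · 1 = z`. For all `u` in `K`: `z · (u · 1) = rot⁻¹(u) · z` where `rot : y ↦ ζ y`: indeed
`z Y(v) = z H s(v) = ζ⁻¹ H s(z v) = ζ⁻¹ Y(z v)`, so multiplication by `z` satisfies
`z ∘ y = (ζ⁻¹ y) ∘ z`. Hence `z^N = z^N · 1 = (∏_{i<N} rot^{-i}(h)) · 1`, and
`z^N = a - x = (a - x) · 1`, so `∏ rot^i(h) = a - x`. Finally `-1 = ∏ rot^i(e)` with the constant
`e`, `e^N = -1`, so `x - a` is a norm too.
One can avoid fields: to have the result in the coordinate ring up to `E(x)` it is enough to
find a nonzero `w = ∑ p_i(x) y^i` in the coordinate ring and nonzero `q(x)` with `w · 1 = q(x) z` in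
`E[z]`: exists by linear algebra over `E(x)`; then `nrm w = q^N (a - x)` and `h = w / q`.
-/

open Polynomial IsDedekindDomain

open scoped Classical

namespace Pool.Agent.Lib.MP_89bcae_ag.Wt

universe u

variable {N : ℕ} {E : Type u} [Field E] {f : E[X]} [hG : IsGood N f]

lemma exists_nrm_eq_xs (ζ : E) (hζ : IsPrimitiveRoot ζ N) (h0 : ζ ≠ 0) (a : E) :
    ∃ h : (FunField N f)ˣ, nrm ζ hζ.pow_eq_one h0 h = xs a := by
  have hl : 0 < N := hG.pos
  have : IsAlgClosed E := hG.alg
  obtain ⟨w', q, hq, hw0', hmain'⟩ := Sup.r12_main_wt (f := f) hG.one_lt ζ hζ h0 a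
  obtain ⟨w, hw⟩ : ∃ w : NRing N f, w = toN w' := ⟨_, rfl⟩
  have hw0 : w ≠ 0 := by
    rw [hw]
    exact fun h => hw0' (toN_injective (h.trans (map_zero _).symm))
  have hmain : ∏ i ∈ Finset.range N, (rotC ζ hζ.pow_eq_one)^[i] w = ofPoly (q ^ N * (C a - X)) := by
    rw [← toN_ofPoly, ← hmain', map_prod, hw]
    exact Finset.prod_congr rfl fun i _ => (toN_rotC_iter ζ hζ.pow_eq_one i w').symm
  obtain ⟨e, he⟩ := IsAlgClosed.exists_pow_nat_eq (-1 : E) hl
  have he0 : e ≠ 0 := by
    intro h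
    rw [h, zero_pow hl.ne'] at he
    exact one_ne_zero (neg_eq_zero.mp he.symm)
  have hinj : Function.Injective (algebraMap (NRing N f) (FunField N f)) :=
    IsFractionRing.injective (NRing N f) (FunField N f)
  set wU : (FunField N f)ˣ := Units.mk0 (algebraMap (NRing N f) (FunField N f) w)
    (by rwa [Ne, map_eq_zero_iff _ hinj]) with hwU
  have hrot : ∀ (u : NRing N f), rotE ζ hζ.pow_eq_one h0 u = rotC ζ hζ.pow_eq_one u := fun u => rfl
  have hit : ∀ i : ℕ, (((rotU ζ hζ.pow_eq_one h0)^[i] wU : (FunField N f)ˣ) : FunField N f) =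
      algebraMap (NRing N f) (FunField N f) ((rotC ζ hζ.pow_eq_one)^[i] w) := by
    intro i
    induction i with
    | zero => rfl
    | succ i ih =>
      rw [Function.iterate_succ_apply', Function.iterate_succ_apply']
      show (autF (rotE ζ hζ.pow_eq_one h0)) (((rotU ζ hζ.pow_eq_one h0)^[i] wU : (FunField N f)ˣ) :
        FunField N f) = _
      rw [ih, autF_algebraMap, hrot]
  have hnw : ((nrm ζ hζ.pow_eq_one h0 wU : (FunField N f)ˣ) : FunField N f) =
      algebraMap (NRing N f) (FunField N f) (ofPoly (q ^ N * (C a - X))) := by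
    unfold nrm
    rw [← hmain, Units.coe_prod, map_prod]
    exact Finset.prod_congr rfl fun i _ => hit i
  have hnq : nrm ζ hζ.pow_eq_one h0 (polyU q hq : (FunField N f)ˣ) = (polyU q hq) ^ N := by
    unfold nrm
    have h1 : ∀ i : ℕ, (rotU ζ hζ.pow_eq_one h0)^[i] (polyU q hq : (FunField N f)ˣ) = polyU q hq := by
      intro i
      induction i with
      | zero => rfl
      | succ i ih => rw [Function.iterate_succ_apply', ih, rotU_polyU]
    rw [Finset.prod_congr rfl (fun i _ => h1 i), Finset.prod_const, Finset.card_range]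
  have hkey : nrm ζ hζ.pow_eq_one h0 (wU * cstU (Units.mk0 e he0)) =
      nrm ζ hζ.pow_eq_one h0 (polyU q hq) * xs a := by
    rw [nrm_mul, nrm_cstU, hnq]
    apply Units.ext
    rw [Units.val_mul, Units.val_mul, hnw, Units.val_pow_eq_pow_val]
    have h1 : ((cstU (Units.mk0 e he0 ^ N) : (FunField N f)ˣ) : FunField N f) =
        algebraMap (NRing N f) (FunField N f) (ofPoly (C (-1))) := by
      have h2 : ((cstU (Units.mk0 e he0 ^ N) : (FunField N f)ˣ) : FunField N f) =
        algebraMap (NRing N f) (FunField N f) (ofPoly (C (e ^ N))) := by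
        show (cst (((Units.mk0 e he0) ^ N : Eˣ) : E) : FunField N f) = _
        rw [Units.val_pow_eq_pow_val]
        rfl
      rw [h2, he]
    have h3 : ((polyU q hq : (FunField N f)ˣ) : FunField N f) =
        algebraMap (NRing N f) (FunField N f) (ofPoly q) := rfl
    have h4 : ((xs a : (FunField N f)ˣ) : FunField N f) =
        algebraMap (NRing N f) (FunField N f) (ofPoly (X - C a)) := rfl
    rw [h1, h3, h4, ← map_mul, ← map_mul, ← map_pow, ← map_pow, ← map_mul, ← map_mul]
    congr 2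
    rw [C_neg, C_1]
    ring
  refine ⟨wU * cstU (Units.mk0 e he0) * (polyU q hq)⁻¹, ?_⟩
  have h5 : nrm ζ hζ.pow_eq_one h0 (wU * cstU (Units.mk0 e he0) * (polyU q hq)⁻¹) *
      nrm ζ hζ.pow_eq_one h0 (polyU q hq) =
      nrm ζ hζ.pow_eq_one h0 (wU * cstU (Units.mk0 e he0)) := by
    rw [← nrm_mul, inv_mul_cancel_right]
  rw [hkey, mul_comm (nrm ζ hζ.pow_eq_one h0 (polyU q hq)) (xs a)] at h5
  exact mul_right_cancel h5

end Pool.Agent.Lib.MP_89bcae_ag.Wt
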