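import Mathlib
import Pool.Agent.Lib.MP_89bcae_ag.Wt.W10

/-!
ROW R14 (150-250 lines). The leading coefficient of a function at a ramified point `(θ, 0)`, with
respect to the uniformizer `y`.

DEFINITION. For a root `θ` of `f` and `P = (θ, 0)`: `lc θ h` is the constant `c` such that the
function `h y^{-ord_P(h)} - c` vanishes at `P` (or is zero): it exists by `exists_residue_pt`, is
unique since nonzero constants have order `0`, and is not `0` since `h y^{-ord h}` has order `0`.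
PROOFS. Multiplicativity: `uv - cd = u (v - d) + d (u - c)` for functions `u`, `v` of order `0`, and
`ord_add`. `lc θ c = c` clear. `x - a - (θ - a) = x - θ` has positive order: `lc θ (x - a) = θ - a`
if `a ≠ θ`. `f = (x - θ) g`, `g(θ) = f'(θ)`, `y^N = (x - θ) g(x)`: `(x - θ) y^{-N} = 1/g(x)`, so
`lc θ (x - θ) = 1 / f'(θ)`. `lc θ y = 1`. Rotation: apply `rot : y ↦ ζ y` (which preserves `ord_P`,
as `P.rot ζ = P`, and constants) to `h y^{-w} - c`: `rot(h) ζ^{-w} y^{-w} - c` vanishes at `P`, so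
`lc θ (rot h) = ζ^w lc θ h`. Symmetries: apply `symU σ` in the same way (`ord_symU`, `symU_yU`).
Definition in Lean: `if hθ : f.eval θ = 0 then (choose ...) else 1`.
-/

open Polynomial IsDedekindDomain

open scoped Classical

namespace Pool.Agent.Lib.MP_89bcae_ag.Wt

universe u

variable {N : ℕ} {E : Type u} [Field E] {f : E[X]} [hG : IsGood N f]

/-- The ramified point `(θ, 0)`. -/
def ramPt (hN : N ≠ 0) {θ : E} (hθ : f.eval θ = 0) : Pt N f := ⟨θ, 0, by rw [zero_pow hN, hθ]⟩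

/-- The order of a function at the ramified point `(θ, 0)` (zero if `θ` is not a root of `f`). -/
noncomputable def ordR (θ : E) (h : (FunField N f)ˣ) : ℤ :=
  if hθ : f.eval θ = 0 then ord (ramPt hG.ne hθ) h else 0

/-- the function `u` has the value `c` at `P` -/
private def R14_res (P : Pt N f) (u : FunField N f) (c : E) : Prop :=
  P.hs.valuation (FunField N f) (u - cst c) < 1

private lemma R14_val_ne_zero (P : Pt N f) (h : (FunField N f)ˣ) :
    P.hs.valuation (FunField N f) (h : FunField N f) ≠ 0 :=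
  (Valuation.ne_zero_iff _).mpr h.ne_zero

private lemma R14_ord_nonneg_iff (P : Pt N f) (h : (FunField N f)ˣ) :
    0 ≤ ord P h ↔ P.hs.valuation (FunField N f) (h : FunField N f) ≤ 1 := by
  have h1 := WithZero.log_le_iff_le_exp (a := (0 : ℤ)) (R14_val_ne_zero P h)
  rw [WithZero.exp_zero] at h1
  rw [← h1]
  unfold ord
  omega

private lemma R14_ord_pos_iff (P : Pt N f) (h : (FunField N f)ˣ) :
    0 < ord P h ↔ P.hs.valuation (FunField N f) (h : FunField N f) < 1 := by
  have h1 := WithZero.log_lt_iff_lt_exp (a := (0 : ℤ)) (R14_val_ne_zero P h)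
  rw [WithZero.exp_zero] at h1
  rw [← h1]
  unfold ord
  omega

private lemma R14_cstU_coe (c : Eˣ) : ((cstU c : (FunField N f)ˣ) : FunField N f) = cst (c : E) := rfl

private lemma R14_val_cst_le (P : Pt N f) (c : E) : P.hs.valuation (FunField N f) (cst c) ≤ 1 :=
  HeightOneSpectrum.valuation_le_one P.hs (ofPoly (C c))

private lemma R14_val_cst_lt (P : Pt N f) (c : E) (h : P.hs.valuation (FunField N f) (cst c) < 1) :
    c = 0 := by
  by_contra hc
  have h1 := (R14_ord_pos_iff P (cstU (Units.mk0 c hc))).mpr (by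
    rw [R14_cstU_coe, Units.val_mk0]; exact h)
  rw [ord_cstU] at h1
  exact lt_irrefl _ h1

private lemma R14_res_le (P : Pt N f) (u : FunField N f) (c : E) (h : R14_res P u c) :
    P.hs.valuation (FunField N f) u ≤ 1 := by
  have h1 : u = (u - cst c) + cst c := by ring
  rw [h1]
  exact (Valuation.map_add _ _ _).trans (max_le (le_of_lt h) (R14_val_cst_le P c))

private lemma R14_res_unique (P : Pt N f) (u : FunField N f) (c c' : E) (h : R14_res P u c)
    (h' : R14_res P u c') : c = c' := by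
  have h1 : P.hs.valuation (FunField N f) (cst (c - c')) < 1 := by
    have h2 : (cst (c - c') : FunField N f) = -(u - cst c) + (u - cst c') := by
      rw [map_sub]; ring
    rw [h2]
    refine lt_of_le_of_lt (Valuation.map_add _ _ _) (max_lt ?_ h')
    rw [Valuation.map_neg]
    exact h
  exact sub_eq_zero.mp (R14_val_cst_lt P _ h1)

private lemma R14_res_mul (P : Pt N f) (u u' : FunField N f) (c c' : E) (h : R14_res P u c)
    (h' : R14_res P u' c') : R14_res P (u * u') (c * c') := by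
  unfold R14_res
  have h2 : u * u' - cst (c * c') = u * (u' - cst c') + cst c' * (u - cst c) := by
    rw [map_mul]; ring
  rw [h2]
  refine lt_of_le_of_lt (Valuation.map_add _ _ _) (max_lt ?_ ?_)
  · rw [map_mul]
    exact (mul_le_of_le_one_left' (R14_res_le P u c h)).trans_lt h'
  · rw [map_mul]
    exact (mul_le_of_le_one_left' (R14_val_cst_le P c')).trans_lt h

private lemma R14_res_cst (P : Pt N f) (c : E) : R14_res P (cst c) c := by
  unfold R14_res
  rw [sub_self, map_zero]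
  exact zero_lt_one

private lemma R14_res_one (P : Pt N f) : R14_res P 1 1 := by
  have h := R14_res_cst P (1 : E)
  rwa [map_one] at h

private lemma R14_res_alg (P : Pt N f) (a : NRing N f) :
    R14_res P (algebraMap (NRing N f) (FunField N f) a) (evalPt P a) := by
  unfold R14_res
  have h1 : algebraMap (NRing N f) (FunField N f) a - cst (evalPt P a) =
      algebraMap (NRing N f) (FunField N f) (a - ofPoly (C (evalPt P a))) := by
    rw [map_sub]
    rfl
  rw [h1]
  refine (HeightOneSpectrum.valuation_lt_one_iff_mem _ _).mpr ?_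
  change evalPt P (a - ofPoly (C (evalPt P a))) = 0
  rw [map_sub, evalPt_ofPoly, eval_C, sub_self]

private lemma R14_exists_res (P : Pt N f) (u : (FunField N f)ˣ) (hu : 0 ≤ ord P u) :
    ∃ c : E, R14_res P u c := by
  obtain ⟨c, hc⟩ := exists_residue_pt P u hu
  refine ⟨c, ?_⟩
  unfold R14_res
  by_cases h0 : (u : FunField N f) - cst c = 0
  · rw [h0, map_zero]
    exact zero_lt_one
  · have h1 := hc (Units.mk0 _ h0) rfl
    rw [R14_ord_pos_iff, Units.val_mk0] at h1
    exact h1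

private lemma R14_res_ne_zero (P : Pt N f) (u : (FunField N f)ˣ) (hu : ord P u = 0) (c : E)
    (hc : R14_res P u c) : c ≠ 0 := by
  rintro rfl
  unfold R14_res at hc
  rw [map_zero, sub_zero, ← R14_ord_pos_iff, hu] at hc
  exact lt_irrefl _ hc

/-- transport of residues by an automorphism -/
private lemma R14_res_aut (φ : NRing N f ≃+* NRing N f) (P Q : Pt N f)
    (h : ∀ a, evalPt Q (φ a) = 0 ↔ evalPt P a = 0) (u : (FunField N f)ˣ) (c d : E)
    (hφ : φ (ofPoly (C c)) = ofPoly (C d)) (hu : R14_res P u c) :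
    R14_res Q (autU φ u : (FunField N f)ˣ) d := by
  have hcoe : ∀ w : (FunField N f)ˣ, ((autU φ w : (FunField N f)ˣ) : FunField N f) = autF φ (w : FunField N f) :=
    fun w => rfl
  have hcst : autF φ (cst c : FunField N f) = cst d := by
    have h1 := autF_algebraMap φ (ofPoly (C c) : NRing N f)
    rw [hφ] at h1
    exact h1
  have hsub : ((autU φ u : (FunField N f)ˣ) : FunField N f) - cst d = autF φ ((u : FunField N f) - cst c) := by
    rw [map_sub, hcst, hcoe]
  unfold R14_res at hu ⊢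
  by_cases h0 : (u : FunField N f) - cst c = 0
  · rw [hsub, h0, map_zero, map_zero]
    exact zero_lt_one
  · have h1 : 0 < ord P (Units.mk0 _ h0) := by
      rw [R14_ord_pos_iff, Units.val_mk0]
      exact hu
    rw [← ord_autU φ P Q h, R14_ord_pos_iff, hcoe, Units.val_mk0, ← hsub] at h1
    exact h1

private lemma R14_ord_norm (P : Pt N f) (hP : P.y = 0) (h : (FunField N f)ˣ) :
    ord P (h * unif P.x ^ (-ord P h)) = 0 := by
  rw [ord_mul, ord_zpow, ord_unif P hP]
  ring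

private lemma R14_exists (P : Pt N f) (hP : P.y = 0) (h : (FunField N f)ˣ) :
    ∃ c : Eˣ, R14_res P ((h * unif P.x ^ (-ord P h) : (FunField N f)ˣ) : FunField N f) c := by
  obtain ⟨c, hc⟩ := R14_exists_res P (h * unif P.x ^ (-ord P h)) (R14_ord_norm P hP h).ge
  exact ⟨Units.mk0 c (R14_res_ne_zero P _ (R14_ord_norm P hP h) c hc), hc⟩

/-- the leading coefficient at a ramified point -/
private noncomputable def R14_lc (P : Pt N f) (hP : P.y = 0) (h : (FunField N f)ˣ) : Eˣ :=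
  (R14_exists P hP h).choose

private lemma R14_lc_spec (P : Pt N f) (hP : P.y = 0) (h : (FunField N f)ˣ) :
    R14_res P ((h * unif P.x ^ (-ord P h) : (FunField N f)ˣ) : FunField N f) (R14_lc P hP h) :=
  (R14_exists P hP h).choose_spec

private lemma R14_lc_eq (P : Pt N f) (hP : P.y = 0) (h : (FunField N f)ˣ) (c : E)
    (hc : R14_res P ((h * unif P.x ^ (-ord P h) : (FunField N f)ˣ) : FunField N f) c) :
    (R14_lc P hP h : E) = c :=
  R14_res_unique P _ _ _ (R14_lc_spec P hP h) hc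

private lemma R14_lc_mul (P : Pt N f) (hP : P.y = 0) (h h' : (FunField N f)ˣ) :
    R14_lc P hP (h * h') = R14_lc P hP h * R14_lc P hP h' := by
  apply Units.ext
  rw [Units.val_mul]
  apply R14_lc_eq
  have h1 := R14_res_mul P _ _ _ _ (R14_lc_spec P hP h) (R14_lc_spec P hP h')
  have h2 : (h * h' * unif P.x ^ (-ord P (h * h')) : (FunField N f)ˣ) =
      (h * unif P.x ^ (-ord P h)) * (h' * unif P.x ^ (-ord P h')) := by
    rw [ord_mul, neg_add, zpow_add]
    exact mul_mul_mul_comm _ _ _ _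
  rw [h2, Units.val_mul]
  exact h1

private noncomputable def R14_hom (P : Pt N f) (hP : P.y = 0) : (FunField N f)ˣ →* Eˣ :=
  MonoidHom.mk' (R14_lc P hP) (R14_lc_mul P hP)

lemma rotU_unif (ζ : E) (hζ : ζ ^ N = 1) (h0 : ζ ≠ 0) (θ : E) :
    rotU ζ hζ h0 (unif θ : (FunField N f)ˣ) =
      cstU (Units.mk0 ζ h0 ^ al N (wt f θ)) * unif θ := by
  have h1 : rotU ζ hζ h0 (xs θ : (FunField N f)ˣ) = xs θ := rotU_polyU ζ hζ h0 _ _
  rw [unif, map_mul, map_pow, map_inv, map_pow, rotU_yU, h1, mul_pow, map_pow, mul_assoc]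

lemma symU_unif (σ : Sym f) (θ : E) :
    symU σ (unif θ : (FunField N f)ˣ) = unif ((σ : E ≃+* E) θ) := by
  have h1 : wt f ((σ : E ≃+* E) θ) = wt f θ := wt_map ((σ : E ≃+* E) : E →+* E) σ.2 θ
  rw [unif, unif, map_mul, map_pow, map_inv, map_pow, symU_yU, symU_xs, h1]

omit hG in
private lemma R14_ram_rot (P : Pt N f) (hP : P.y = 0) (ζ : E) (hζ : ζ ^ N = 1) :
    P.rot ζ hζ = P := by
  ext
  · rfl
  · change ζ * P.y = P.y
    rw [hP, mul_zero]

private lemma R14_rotU (P : Pt N f) (hP : P.y = 0) (ζ : E) (hζ : ζ ^ N = 1) (h0 : ζ ≠ 0)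
    (h : (FunField N f)ˣ) :
    (R14_lc P hP (rotU ζ hζ h0 h) : E) = ζ ^ (al N (wt f P.x) * ord P h) * R14_lc P hP h := by
  have hord : ord P (rotU ζ hζ h0 h) = ord P h := by
    rw [ord_rotU, R14_ram_rot P hP]
  apply R14_lc_eq
  rw [hord]
  have h1 : R14_res P ((rotU ζ hζ h0 (h * unif P.x ^ (-ord P h)) : (FunField N f)ˣ) : FunField N f)
      (R14_lc P hP h) := by
    refine R14_res_aut (rotE ζ hζ h0) P P ?_ _ _ _ ?_ (R14_lc_spec P hP h)
    · intro a
      rw [evalPt_rotE, R14_ram_rot P hP]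
    · exact rotC_ofPoly ζ hζ _
  have h2 : (rotU ζ hζ h0 h * unif P.x ^ (-ord P h) : (FunField N f)ˣ) =
      cstU ((Units.mk0 ζ h0 ^ al N (wt f P.x)) ^ ord P h) *
        rotU ζ hζ h0 (h * unif P.x ^ (-ord P h)) := by
    rw [map_mul (rotU ζ hζ h0), map_zpow (rotU ζ hζ h0), rotU_unif, map_zpow cstU, mul_zpow,
      zpow_neg (cstU (Units.mk0 ζ h0 ^ al N (wt f P.x))), mul_left_comm (rotU ζ hζ h0 h),
      mul_inv_cancel_left]
  rw [h2, Units.val_mul]
  refine R14_res_mul P _ _ _ _ ?_ h1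
  have h3 : ((cstU ((Units.mk0 ζ h0 ^ al N (wt f P.x)) ^ ord P h) : (FunField N f)ˣ) :
      FunField N f) = cst (ζ ^ (al N (wt f P.x) * ord P h)) := by
    rw [R14_cstU_coe]
    congr 1
    rw [Units.val_zpow_eq_zpow_val, Units.val_pow_eq_pow_val, Units.val_mk0, zpow_mul,
      zpow_natCast]
  rw [h3]
  exact R14_res_cst P _

private lemma R14_symU (P : Pt N f) (hP : P.y = 0) (σ : Sym f) (hP' : (P.sym σ).y = 0)
    (h : (FunField N f)ˣ) :
    (R14_lc (P.sym σ) hP' (symU σ h) : E) = (σ : E ≃+* E) (R14_lc P hP h : E) := by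
  apply R14_lc_eq
  rw [ord_symU]
  have h2 : (symU σ h * unif (P.sym σ).x ^ (-ord P h) : (FunField N f)ˣ) =
      symU σ (h * unif P.x ^ (-ord P h)) := by
    rw [map_mul (symU σ), map_zpow (symU σ), symU_unif]
    rfl
  rw [h2]
  refine R14_res_aut (symE N σ) P (P.sym σ) ?_ _ _ _ ?_ (R14_lc_spec P hP h)
  · intro a
    rw [evalPt_symE]
    exact map_eq_zero_iff _ (RingEquiv.injective _)
  · have h3 := coordMap_ofPoly (N := N) ((σ : E ≃+* E) : E →+* E) σ.2 (C (R14_lc P hP h : E))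
    rw [Polynomial.map_C] at h3
    exact h3

private lemma R14_lc_cst (P : Pt N f) (hP : P.y = 0) (c : Eˣ) :
    R14_lc P hP (cstU c) = c := by
  apply Units.ext
  apply R14_lc_eq
  rw [ord_cstU, neg_zero, zpow_zero, mul_one]
  exact R14_res_cst P _

private lemma R14_lc_xs (P : Pt N f) (hP : P.y = 0) (a : E) (ha : a ≠ P.x) :
    (R14_lc P hP (xs a) : E) = P.x - a := by
  apply R14_lc_eq
  rw [ord_xs_of_ne P (Ne.symm ha), neg_zero, zpow_zero, mul_one]
  have h := R14_res_alg P (ofPoly (X - C a))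
  rw [evalPt_ofPoly, eval_sub, eval_X, eval_C] at h
  exact h

private lemma R14_res_cofP (P : Pt N f) (n : ℕ) :
    R14_res P ((polyU (cofP f P.x) (cofP_ne_zero (f_ne_zero N f) P.x) ^ n : (FunField N f)ˣ) :
      FunField N f) (cof f P.x ^ n) := by
  have h1 : ((polyU (cofP f P.x) (cofP_ne_zero (f_ne_zero N f) P.x) ^ n : (FunField N f)ˣ) :
      FunField N f) = algebraMap (NRing N f) (FunField N f) (ofPoly (cofP f P.x ^ n)) := by
    rw [← polyU_pow]
    rfl
  have h2 := R14_res_alg P (ofPoly (cofP f P.x ^ n))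
  rw [evalPt_ofPoly, eval_pow] at h2
  rw [h1]
  exact h2

private lemma R14_lc_inv (P : Pt N f) (hP : P.y = 0) (h : (FunField N f)ˣ) (n : ℕ)
    (hrel : h * unif P.x ^ (-ord P h) *
      polyU (cofP f P.x) (cofP_ne_zero (f_ne_zero N f) P.x) ^ n = 1) :
    (R14_lc P hP h : E) = (cof f P.x ^ n)⁻¹ := by
  have h3 := R14_res_mul P _ _ _ _ (R14_lc_spec P hP h) (R14_res_cofP P n)
  rw [← Units.val_mul, hrel, Units.val_one] at h3
  have h4 := R14_res_unique P _ _ _ h3 (R14_res_one P)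
  exact eq_inv_of_mul_eq_one_left h4

private lemma R14_lc_yU (P : Pt N f) (hP : P.y = 0) :
    (R14_lc P hP yU : E) = (cof f P.x ^ be N (wt f P.x))⁻¹ := by
  apply R14_lc_inv
  rw [ord_yU_of_ramified P hP, zpow_neg, zpow_natCast,
    unif_pow_wt (N := N) (eval_of_y_eq_zero P hP), mul_inv, ← mul_assoc, mul_inv_cancel, one_mul,
    inv_mul_cancel]

private lemma R14_lc_xs_self (P : Pt N f) (hP : P.y = 0) :
    (R14_lc P hP (xs P.x) : E) = (cof f P.x ^ al N (wt f P.x))⁻¹ := by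
  apply R14_lc_inv
  rw [ord_xs_of_ramified P hP, zpow_neg, zpow_natCast,
    unif_pow (N := N) (eval_of_y_eq_zero P hP), mul_inv_rev, ← mul_assoc, mul_inv_cancel, one_mul,
    inv_mul_cancel]

lemma exists_lc : ∃ lc : E → (FunField N f)ˣ →* Eˣ, ∀ θ, f.eval θ = 0 →
    (∀ c : Eˣ, lc θ (cstU c) = c) ∧
    (∀ a, (h : a ≠ θ) → (lc θ (xs a) : E) = θ - a) ∧
    ((lc θ (xs θ : (FunField N f)ˣ) : E) = (cof f θ ^ al N (wt f θ))⁻¹) ∧
    ((lc θ (yU : (FunField N f)ˣ) : E) = (cof f θ ^ be N (wt f θ))⁻¹) ∧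
    (∀ (ζ : E) (hζ : ζ ^ N = 1) (h0 : ζ ≠ 0) (h : (FunField N f)ˣ),
      (lc θ (rotU ζ hζ h0 h) : E) = ζ ^ (al N (wt f θ) * ordR θ h) * lc θ h) ∧
    (∀ (σ : Sym f) (h : (FunField N f)ˣ),
      (lc ((σ : E ≃+* E) θ) (symU σ h) : E) = (σ : E ≃+* E) (lc θ h : E)) := by
  have key : ∀ θ (hθ : f.eval θ = 0), (if hθ : f.eval θ = 0 then
      R14_hom (ramPt hG.ne hθ : Pt N f) rfl else 1 : (FunField N f)ˣ →* Eˣ) =
      R14_hom (ramPt hG.ne hθ : Pt N f) rfl := fun θ hθ => dif_pos hθ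
  refine ⟨fun θ => if hθ : f.eval θ = 0 then
    R14_hom (ramPt hG.ne hθ : Pt N f) rfl else 1, ?_⟩
  intro θ hθ
  have hord : ∀ h : (FunField N f)ˣ, ordR θ h = ord (ramPt hG.ne hθ) h :=
    fun h => dif_pos hθ
  simp only [key θ hθ]
  refine ⟨?_, ?_, ?_, ?_, ?_, ?_⟩
  · intro c
    exact R14_lc_cst (ramPt hG.ne hθ : Pt N f) rfl c
  · intro a ha
    exact R14_lc_xs (ramPt hG.ne hθ : Pt N f) rfl a ha
  · exact R14_lc_xs_self (ramPt hG.ne hθ : Pt N f) rfl
  · exact R14_lc_yU (ramPt hG.ne hθ : Pt N f) rfl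
  · intro ζ hζ h0 h
    rw [hord]
    exact R14_rotU (ramPt hG.ne hθ : Pt N f) rfl ζ hζ h0 h
  · intro σ h
    have hθ' : f.eval ((σ : E ≃+* E) θ) = 0 := by
      have h1 : f.map (((σ : E ≃+* E) : E →+* E)) = f := σ.2
      have h2 : (f.map (((σ : E ≃+* E) : E →+* E))).eval (((σ : E ≃+* E) : E →+* E) θ) = 0 := by
        rw [Polynomial.eval_map_apply, hθ, map_zero]
      rw [h1] at h2
      exact h2
    rw [key _ hθ']
    have hpt : (ramPt hG.ne hθ' : Pt N f) =
        (ramPt hG.ne hθ : Pt N f).sym σ := by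
      ext
      · rfl
      · exact (map_zero (σ : E ≃+* E)).symm
    have h3 := R14_symU (ramPt hG.ne hθ : Pt N f) rfl σ
      (by rw [← hpt]; rfl) h
    change (R14_lc (ramPt hG.ne hθ' : Pt N f) rfl (symU σ h) : E) = _
    have h4 : ∀ (Q Q' : Pt N f) (hQ : Q.y = 0) (hQ' : Q'.y = 0), Q = Q' → ∀ u : (FunField N f)ˣ,
        R14_lc Q hQ u = R14_lc Q' hQ' u := by
      rintro Q _ hQ hQ' rfl u
      rfl
    rw [h4 _ _ rfl (by rw [← hpt]; rfl) hpt]
    exact h3

/-- The leading coefficient at `(θ, 0)`. -/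
noncomputable def lc (θ : E) : (FunField N f)ˣ →* Eˣ := (exists_lc (N := N) (f := f)).choose θ

lemma lc_spec {θ : E} (hθ : f.eval θ = 0) :
    (∀ c : Eˣ, lc θ (cstU c : (FunField N f)ˣ) = c) ∧
    (∀ a, (h : a ≠ θ) → (lc θ (xs a : (FunField N f)ˣ) : E) = θ - a) ∧
    ((lc θ (xs θ : (FunField N f)ˣ) : E) = (cof f θ ^ al N (wt f θ))⁻¹) ∧
    ((lc θ (yU : (FunField N f)ˣ) : E) = (cof f θ ^ be N (wt f θ))⁻¹) ∧
    (∀ (ζ : E) (hζ : ζ ^ N = 1) (h0 : ζ ≠ 0) (h : (FunField N f)ˣ),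
      (lc θ (rotU ζ hζ h0 h) : E) = ζ ^ (al N (wt f θ) * ordR θ h) * lc θ h) ∧
    (∀ (σ : Sym f) (h : (FunField N f)ˣ),
      (lc ((σ : E ≃+* E) θ) (symU σ h) : E) = (σ : E ≃+* E) (lc θ h : E)) :=
  (exists_lc (N := N) (f := f)).choose_spec θ hθ

end Pool.Agent.Lib.MP_89bcae_ag.Wt
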