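import Mathlib
import Pool.Agent.Lib.MP_89bcae_ag.Wt.W18

/-!
THE KUMMER FORMULA.

STATEMENT. Let `Q - Z Q = cl D`. There are `z θ ≠ 0` in `E` (for the roots `θ` of `f`) with
`(z θ)^N = ε^{D(θ,0)} ∏_P (θ - x(P))^{D(P)}`, where `ε = (-1)^(N+1)` and the factor of
`P = (θ, 0)` is replaced by `(1/f'(θ))^{D(P)}`, such that for every automorphism `σ` in `Sym f` which
fixes `ζ` and `D`: if `σ (z θ) = ζ^{n(σ θ)} z (σ θ)` for all roots `θ`, then
`σ Q - Q = ram n = ∑ n(θ) [(θ, 0)]`.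
-/

open Polynomial IsDedekindDomain

open scoped Classical

namespace Pool.Agent.Lib.MP_89bcae_ag.Wt

universe u

variable {N : ℕ} {E : Type u} [Field E] {f : E[X]} [hG : IsGood N f]

/-- The value at `θ` of `∏ (x - x(P)) ^ D(P)`, regularized if `θ` is one of the `x(P)`. -/
noncomputable def uval (D : Pt N f →₀ ℤ) (θ : E) : E :=
  D.prod fun P n => (if P.x = θ then (cof f θ ^ al N (wt f θ))⁻¹ else θ - P.x) ^ n

omit hG in
lemma R21_eval (σ : Sym f) (θ : E) :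
    f.eval ((σ : E ≃+* E) θ) = (σ : E ≃+* E) (f.eval θ) := by
  have h : f.map ((σ : E ≃+* E) : E →+* E) = f := mem_Sym.1 σ.2
  refine (congrArg (fun g : E[X] => g.eval ((σ : E ≃+* E) θ)) h.symm).trans ?_
  rw [Polynomial.eval_map]
  exact Polynomial.eval₂_hom ((σ : E ≃+* E) : E →+* E) θ

omit hG in
lemma R21_sym_injective (σ : Sym f) : Function.Injective (Pt.sym σ : Pt N f → Pt N f) := by
  intro P P' hP
  have hx := congrArg Pt.x hP
  have hy := congrArg Pt.y hP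
  exact Pt.ext ((σ : E ≃+* E).injective hx) ((σ : E ≃+* E).injective hy)

omit hG in
lemma R21_sym_rot (σ : Sym f) (ζ : E) (hζ : ζ ^ N = 1) (hσ : (σ : E ≃+* E) ζ = ζ) :
    (Pt.sym σ : Pt N f → Pt N f) ∘ Pt.rot ζ hζ = Pt.rot ζ hζ ∘ Pt.sym σ := by
  funext P
  refine Pt.ext ?_ ?_
  · rfl
  · change (σ : E ≃+* E) (ζ * P.y) = ζ * (σ : E ≃+* E) P.y
    rw [map_mul, hσ]

lemma R21_atR_sym (σ : Sym f) (D : Pt N f →₀ ℤ) {θ : E} (hθ : f.eval θ = 0) :
    atR (D.mapDomain (Pt.sym σ)) ((σ : E ≃+* E) θ) = atR D θ := by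
  have hσθ : f.eval ((σ : E ≃+* E) θ) = 0 := by rw [R21_eval, hθ, map_zero]
  rw [atR, atR, dif_pos hθ, dif_pos hσθ]
  have h : (⟨(σ : E ≃+* E) θ, 0, by rw [zero_pow hG.ne, hσθ]⟩ : Pt N f) =
      Pt.sym σ ⟨θ, 0, by rw [zero_pow hG.ne, hθ]⟩ := by
    refine Pt.ext rfl ?_
    change 0 = (σ : E ≃+* E) 0
    rw [map_zero]
  rw [h, Finsupp.mapDomain_apply (R21_sym_injective σ)]

omit hG in
lemma R21_rot_injective {ζ : E} (hζ : ζ ^ N = 1) (h0 : ζ ≠ 0) :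
    Function.Injective (Pt.rot ζ hζ : Pt N f → Pt N f) := by
  intro P P' hP
  have hx := congrArg Pt.x hP
  have hy := congrArg Pt.y hP
  exact Pt.ext hx (mul_left_cancel₀ h0 hy)

lemma R21_atR_sub (D D' : Pt N f →₀ ℤ) (θ : E) : atR (D - D') θ = atR D θ - atR D' θ := by
  unfold atR
  split_ifs
  · rfl
  · rfl

lemma R21_atR_rot {ζ : E} (hζ : ζ ^ N = 1) (h0 : ζ ≠ 0) (D : Pt N f →₀ ℤ) (θ : E) :
    atR (D.mapDomain (Pt.rot ζ hζ)) θ = atR D θ := by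
  unfold atR
  split_ifs with hθ
  · have h := R18_rot_ramPt (N := N) ζ hζ hθ
    conv_lhs => rw [show (⟨θ, 0, by rw [zero_pow hG.ne, hθ]⟩ : Pt N f) =
      Pt.rot ζ hζ ⟨θ, 0, by rw [zero_pow hG.ne, hθ]⟩ from h.symm]
    rw [Finsupp.mapDomain_apply (R21_rot_injective hζ h0)]
  · rfl

lemma R21_ordR (θ : E) (h : (FunField N f)ˣ) : ordR θ h = atR (div h) θ := by
  unfold ordR atR
  split_ifs
  · rfl
  · rfl

omit hG in
lemma R21_eps {ζ : E} (hζ : IsPrimitiveRoot ζ N) (hN : 0 < N) :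
    ζ ^ (∑ i ∈ Finset.range N, i) = (-1) ^ (N + 1) := by
  have h2 := Finset.sum_range_id_mul_two N
  rcases Nat.even_or_odd N with heven | hodd
  · obtain ⟨k, hk⟩ := heven
    have h1 : ζ ^ k = -1 := by
      have h3 : IsPrimitiveRoot (ζ ^ k) 2 := hζ.pow hN (by omega)
      exact h3.eq_neg_one_of_two_right
    have h4 : ∑ i ∈ Finset.range N, i = k * (N - 1) := by
      have h5 : (∑ i ∈ Finset.range N, i) * 2 = (k * (N - 1)) * 2 := by
        rw [h2]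
        nth_rw 1 [hk]
        ring
      omega
    have h6 : N + 1 = (N - 1) + 2 := by omega
    rw [h4, pow_mul, h1, h6, pow_add]
    norm_num
  · obtain ⟨k, hk⟩ := hodd
    have h1 : ∑ i ∈ Finset.range N, i = N * k := by
      have h3 : N - 1 = 2 * k := by omega
      rw [h3] at h2
      nlinarith
    rw [h1, pow_mul, hζ.pow_eq_one, one_pow, Even.neg_one_pow]
    exact ⟨k + 1, by omega⟩

/-- The sign in the Kummer formula. -/
lemma R21_eps_al {θ : E} (hθ : f.eval θ = 0) (k : ℤ) :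
    (((-1 : E) ^ (N + 1)) ^ (al N (wt f θ) * k)) = ((-1) ^ (N + 1)) ^ k := by
  rw [zpow_mul, zpow_natCast]
  congr 1
  have h1 := al_wt (N := N) hθ
  rcases Nat.even_or_odd N with heven | hodd
  · have h2 : Odd (al N (wt f θ) * wt f θ) := by
      rw [h1]
      exact (heven.mul_left _).add_one
    have h3 : Odd (al N (wt f θ)) := (Nat.odd_mul.1 h2).1
    have h4 : Odd (N + 1) := heven.add_one
    rw [h4.neg_one_pow, h3.neg_one_pow]
  · have h4 : Even (N + 1) := hodd.add_one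
    rw [h4.neg_one_pow, one_pow]

lemma R21_lc_xprod {θ : E} (hθ : f.eval θ = 0) (D : Pt N f →₀ ℤ) :
    (lc θ (xprod D) : E) = uval D θ := by
  rw [xprod, uval, Finsupp.prod, Finsupp.prod, map_prod, Units.coe_prod]
  refine Finset.prod_congr rfl fun P _ => ?_
  rw [map_zpow, Units.val_zpow_eq_zpow_val]
  congr 1
  split_ifs with hP
  · rw [hP, (lc_spec hθ).2.2.1]
  · rw [(lc_spec hθ).2.1 P.x hP]

lemma R21_nrm_div (ζ : E) (hζ : ζ ^ N = 1) (h0 : ζ ≠ 0) (h h' : (FunField N f)ˣ) :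
    nrm ζ hζ h0 (h / h') = nrm ζ hζ h0 h / nrm ζ hζ h0 h' := by
  rw [eq_div_iff_mul_eq', ← nrm_mul, div_mul_cancel]

lemma R21_nrm_sym (σ : Sym f) (ζ : E) (hζ : ζ ^ N = 1) (h0 : ζ ≠ 0)
    (hσ : (σ : E ≃+* E) ζ = ζ) (h : (FunField N f)ˣ) :
    nrm ζ hζ h0 (symU σ h) = symU σ (nrm ζ hζ h0 h) := by
  have key : ∀ i, (rotU ζ hζ h0)^[i] (symU σ h) = symU σ ((rotU ζ hζ h0)^[i] h) := by
    intro i
    induction i with
    | zero => rfl
    | succ i ih =>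
      rw [Function.iterate_succ_apply', Function.iterate_succ_apply', ih,
        symU_rotU σ ζ hζ h0 hσ]
  rw [nrm, nrm, map_prod]
  exact Finset.prod_congr rfl fun i _ => key i

theorem kummer_formula (ζ : E) (hζ : IsPrimitiveRoot ζ N) (Q : Jac N f) (D : Pt N f →₀ ℤ)
    (hQ : Q - zJ ζ hζ.pow_eq_one Q = cl D) :
    ∃ z : E → E, (∀ θ, f.eval θ = 0 → z θ ≠ 0 ∧
      z θ ^ N = ((-1) ^ (N + 1)) ^ atR D θ * uval D θ) ∧
      ∀ (σ : Sym f), (σ : E ≃+* E) ζ = ζ → D.mapDomain (Pt.sym σ) = D → ∀ n : E → ℤ,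
        (∀ θ, f.eval θ = 0 →
          (σ : E ≃+* E) (z θ) = ζ ^ n ((σ : E ≃+* E) θ) * z ((σ : E ≃+* E) θ)) →
        symJ σ Q - Q = ram fun θ => wt f θ * n θ := by
  have h0 : ζ ≠ 0 := hζ.ne_zero hG.ne
  obtain ⟨D₁, rfl⟩ := cl_surjective Q
  rw [zJ_cl] at hQ
  have h1 : cl (D₁ - D₁.mapDomain (Pt.rot ζ hζ.pow_eq_one) - D) = 0 := by
    rw [map_sub, map_sub, hQ, sub_self]
  obtain ⟨w₀, hw₀⟩ := exists_div_of_cl_eq_zero _ h1
  obtain ⟨c, hc⟩ := exists_nrm_eq ζ hζ h0 w₀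
  obtain ⟨w, hw, hn⟩ := R18_exists_normalized ζ hζ.pow_eq_one h0 w₀ c _ hc
  rw [hw₀] at hw hn
  have hx : nrm ζ hζ.pow_eq_one h0 w = (xprod D)⁻¹ := by
    rw [hn, R18_xprod_sub, R18_xprod_sub, xprod_rot, div_self', one_div]
  have hord : ∀ θ, ordR θ w = -atR D θ := by
    intro θ
    rw [R21_ordR, hw, R21_atR_sub, R21_atR_sub, R21_atR_rot _ h0, sub_self, zero_sub]
  refine ⟨fun θ => ζ ^ (al N (wt f θ) * atR D₁ θ) * (lc θ w : E)⁻¹, fun θ hθ => ⟨?_, ?_⟩, ?_⟩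
  · exact mul_ne_zero (zpow_ne_zero _ h0) (inv_ne_zero (lc θ w).ne_zero)
  · have h2 := R18_lc_nrm ζ hζ.pow_eq_one h0 hθ w
    rw [hx, map_inv, Units.val_inv_eq_inv_val, R21_lc_xprod hθ, hord, ← zpow_natCast (ζ ^ _),
      ← zpow_mul, mul_comm ((al N (wt f θ) : ℤ) * -atR D θ), zpow_mul, zpow_natCast,
      R21_eps hζ hG.pos, R21_eps_al hθ, zpow_neg] at h2
    have h3 : (ζ ^ (al N (wt f θ) * atR D₁ θ)) ^ N = 1 := by
      rw [← zpow_natCast, ← zpow_mul, mul_comm, zpow_mul, zpow_natCast, hζ.pow_eq_one, one_zpow]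
    have hε : (((-1 : E) ^ (N + 1)) ^ atR D θ) * (((-1 : E) ^ (N + 1)) ^ atR D θ) = 1 := by
      rw [← mul_zpow, ← pow_add, Even.neg_one_pow ⟨N + 1, rfl⟩, one_zpow]
    rw [mul_pow, h3, one_mul, inv_pow]
    rw [inv_eq_iff_eq_inv, mul_inv, h2, ← mul_assoc]
    have h4 : (((-1 : E) ^ (N + 1)) ^ atR D θ)⁻¹ * (((-1 : E) ^ (N + 1)) ^ atR D θ)⁻¹ = 1 := by
      rw [← mul_inv, hε, inv_one]
    rw [h4, one_mul]
  · intro σ hσζ hσD n hzn
    have hdiv : D₁.mapDomain (Pt.sym σ) - D₁ -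
        (D₁.mapDomain (Pt.sym σ) - D₁).mapDomain (Pt.rot ζ hζ.pow_eq_one) =
        div (symU σ w / w) := by
      rw [R18_div_div, div_symU, hw]
      have h5 : ∀ A B : Pt N f →₀ ℤ, ∀ g : Pt N f → Pt N f,
          (A - B).mapDomain g = A.mapDomain g - B.mapDomain g := fun A B g =>
        map_sub (Finsupp.mapDomain.addMonoidHom g) A B
      rw [h5, h5, h5, hσD, ← Finsupp.mapDomain_comp, ← Finsupp.mapDomain_comp,
        R21_sym_rot σ ζ hζ.pow_eq_one hσζ]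
      abel
    have hnh : nrm ζ hζ.pow_eq_one h0 (symU σ w / w) = 1 := by
      rw [R21_nrm_div, R21_nrm_sym σ ζ _ h0 hσζ, hx, map_inv, symU_xprod, hσD, div_self']
    have hm := cl_eq_ram ζ hζ h0 (D₁.mapDomain (Pt.sym σ) - D₁) (symU σ w / w) hdiv hnh
      (fun θ => al N (wt f θ) * atR D₁ (((σ⁻¹ : Sym f) : E ≃+* E) θ) - n θ -
        al N (wt f θ) * atR D₁ θ) (by
        intro θ' hθ'
        obtain ⟨θ, rfl⟩ := (σ : E ≃+* E).surjective θ'
        have hθ : f.eval θ = 0 := by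
          rw [R21_eval] at hθ'
          exact (map_eq_zero_iff _ (σ : E ≃+* E).injective).1 hθ'
        have h6 := hzn θ hθ
        have hwσ : wt f ((σ : E ≃+* E) θ) = wt f θ := wt_map ((σ : E ≃+* E) : E →+* E) σ.2 θ
        simp only at h6
        have h7 : (((σ⁻¹ : Sym f) : E ≃+* E)) ((σ : E ≃+* E) θ) = θ :=
          (σ : E ≃+* E).symm_apply_apply θ
        rw [map_mul, map_zpow₀, hσζ, map_inv₀] at h6
        rw [_root_.map_div, Units.val_div_eq_div_val, (lc_spec hθ).2.2.2.2.2 σ w, h7]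
        rw [hwσ] at h6 ⊢
        have h8 : ((lc ((σ : E ≃+* E) θ) w : Eˣ) : E) ≠ 0 := (lc ((σ : E ≃+* E) θ) w).ne_zero
        have h9 : (σ : E ≃+* E) (lc θ w : E) ≠ 0 :=
          (map_ne_zero_iff _ (σ : E ≃+* E).injective).2 (lc θ w).ne_zero
        have h10 : ∀ m : ℤ, ζ ^ m ≠ 0 := fun m => zpow_ne_zero m h0
        rw [zpow_sub₀ h0, zpow_sub₀ h0]
        have h11 := h10 (n ((σ : E ≃+* E) θ))
        have h12 := h10 (al N (wt f θ) * atR D₁ ((σ : E ≃+* E) θ))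
        have h13 := h10 (al N (wt f θ) * atR D₁ θ)
        generalize ζ ^ n ((σ : E ≃+* E) θ) = M at *
        generalize ζ ^ (al N (wt f θ) * atR D₁ ((σ : E ≃+* E) θ)) = A at *
        generalize ζ ^ (al N (wt f θ) * atR D₁ θ) = B at *
        generalize (σ : E ≃+* E) (lc θ w : E) = S at *
        generalize ((lc ((σ : E ≃+* E) θ) w : Eˣ) : E) = T at *
        field_simp at h6 ⊢
        linear_combination -h6)
    rw [symJ_cl, ← map_sub, hm]
    refine ram_congr _ _ fun θ' hθ' => ?_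
    obtain ⟨θ, rfl⟩ := (σ : E ≃+* E).surjective θ'
    have hθ : f.eval θ = 0 := by
      rw [R21_eval] at hθ'
      exact (map_eq_zero_iff _ (σ : E ≃+* E).injective).1 hθ'
    have hwσ : wt f ((σ : E ≃+* E) θ) = wt f θ := wt_map ((σ : E ≃+* E) : E →+* E) σ.2 θ
    have h7 : (((σ⁻¹ : Sym f) : E ≃+* E)) ((σ : E ≃+* E) θ) = θ :=
      (σ : E ≃+* E).symm_apply_apply θ
    simp only [R21_atR_sub, R21_atR_sym σ D₁ hθ, h7, hwσ]
    have hw : ((al N (wt f θ) * wt f θ : ℕ) : ℤ) = ((be N (wt f θ) * N + 1 : ℕ) : ℤ) := by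
      rw [al_wt (N := N) hθ]
    push_cast at hw
    refine ⟨-(be N (wt f θ) * (atR D₁ θ - atR D₁ ((σ : E ≃+* E) θ))), ?_⟩
    linear_combination (-(atR D₁ θ - atR D₁ ((σ : E ≃+* E) θ))) * hw

end Pool.Agent.Lib.MP_89bcae_ag.Wt
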