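import Mathlib
import Pool.Agent.Lib.MP_89bcae_ag.Wt.W21

/-!
ROW U01 (60-120 lines). `uval D θ = ∏_P (θ - x(P))^{D(P)}` (regularized): equivariance, examples.

PROOF. `Finsupp.prod_mapDomain_index` or reindexing the product over the support along the bijection
`Pt.sym σ` of the points: `(P.sym σ).x = σ P.x`, `σ (f'(θ)) = f'(σ θ)` since `σ` fixes the coefficients
of `f`, `P.x = θ ↔ (P.sym σ).x = σ θ`. For `ramDiv e` the support is in the set of the points
`(θ', 0)`, `θ'` root of `f` (`f.roots.toFinset`; the point `(θ, 0)` exists for each root).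
-/

open Polynomial

open scoped Classical

namespace Pool.Agent.Lib.MP_89bcae_ag.Wt

universe u

variable {N : ℕ} {E : Type u} [Field E] {f : E[X]} [hG : IsGood N f]

omit hG in
lemma U01_sym_inj (σ : Sym f) : Function.Injective (Pt.sym (N := N) σ) := by
  intro P Q h
  ext
  · exact (σ : E ≃+* E).injective (congrArg Pt.x h)
  · exact (σ : E ≃+* E).injective (congrArg Pt.y h)

omit hG in
lemma U01_eval_sym (σ : Sym f) (p : E[X]) (hp : p.map ((σ : E ≃+* E) : E →+* E) = p) (θ : E) :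
    p.eval ((σ : E ≃+* E) θ) = (σ : E ≃+* E) (p.eval θ) := by
  have h := Polynomial.eval₂_hom ((σ : E ≃+* E) : E →+* E) θ (p := p)
  rw [← Polynomial.eval_map, hp] at h
  exact h

omit hG in
lemma cof_map {E' : Type u} [Field E'] {f' : E'[X]} (σ : E →+* E') (h : f.map σ = f')
    (θ : E) : cof f' (σ θ) = σ (cof f θ) := by
  unfold cof cofP
  rw [wt_map σ h θ, ← h, ← Polynomial.map_X (f := σ), ← Polynomial.map_C, ← Polynomial.map_sub,
    ← Polynomial.map_pow, ← Polynomial.map_divByMonic _ ((monic_X_sub_C θ).pow _),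
    Polynomial.eval_map, Polynomial.eval₂_hom]

omit hG in
lemma cof_sym (σ : Sym f) (θ : E) : cof f ((σ : E ≃+* E) θ) = (σ : E ≃+* E) (cof f θ) :=
  cof_map ((σ : E ≃+* E) : E →+* E) σ.2 θ

omit hG in
lemma wt_sym (σ : Sym f) (θ : E) : wt f ((σ : E ≃+* E) θ) = wt f θ :=
  wt_map ((σ : E ≃+* E) : E →+* E) σ.2 θ

lemma uval_ne_zero (D : Pt N f →₀ ℤ) {θ : E} : uval D θ ≠ 0 := by
  unfold uval
  rw [Finsupp.prod, Finset.prod_ne_zero_iff]
  intro P _
  apply zpow_ne_zero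
  split_ifs with h
  · exact inv_ne_zero (pow_ne_zero _ (cof_ne_zero (f_ne_zero N f) θ))
  · exact sub_ne_zero.mpr (Ne.symm h)

lemma sym_uval (σ : Sym f) (D : Pt N f →₀ ℤ) (hD : D.mapDomain (Pt.sym σ) = D) (θ : E) :
    (σ : E ≃+* E) (uval D θ) = uval D ((σ : E ≃+* E) θ) := by
  conv_rhs => rw [← hD]
  unfold uval
  rw [Finsupp.prod_mapDomain_index_inj (U01_sym_inj σ), Finsupp.prod, Finsupp.prod, map_prod]
  apply Finset.prod_congr rfl
  intro P _
  rw [map_zpow₀]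
  congr 1
  have hx : (P.sym σ).x = (σ : E ≃+* E) P.x := rfl
  by_cases h : P.x = θ
  · rw [if_pos h, if_pos (by rw [hx, h]), map_inv₀, map_pow, cof_sym, wt_sym]
  · rw [if_neg h, if_neg (by
      rw [hx]
      exact fun h' => h ((σ : E ≃+* E).injective h')), map_sub, hx]

lemma eval_sym_eq_zero (σ : Sym f) {θ : E} : f.eval ((σ : E ≃+* E) θ) = 0 ↔ f.eval θ = 0 := by
  rw [U01_eval_sym σ f σ.2]
  exact map_eq_zero_iff _ (σ : E ≃+* E).injective

lemma sym_atR (σ : Sym f) (D : Pt N f →₀ ℤ) (hD : D.mapDomain (Pt.sym σ) = D) (θ : E) :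
    atR D ((σ : E ≃+* E) θ) = atR D θ := by
  have h0 : f.eval ((σ : E ≃+* E) θ) = 0 ↔ f.eval θ = 0 := by
    rw [U01_eval_sym σ f σ.2]
    exact map_eq_zero_iff _ (σ : E ≃+* E).injective
  unfold atR
  by_cases hθ : f.eval θ = 0
  · rw [dif_pos hθ, dif_pos (h0.mpr hθ)]
    have hP : (0 : E) ^ N = f.eval θ := by rw [zero_pow hG.ne, hθ]
    have e : (⟨(σ : E ≃+* E) θ, 0, by rw [zero_pow hG.ne, h0.mpr hθ]⟩ : Pt N f)
        = Pt.sym σ ⟨θ, 0, hP⟩ := by
      ext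
      · rfl
      · exact (map_zero ((σ : E ≃+* E) : E →+* E)).symm
    rw [e]
    conv_lhs => rw [← hD]
    rw [Finsupp.mapDomain_apply (U01_sym_inj σ)]
  · rw [dif_neg hθ, dif_neg (fun h => hθ (h0.mp h))]

lemma atR_ramDiv (e : E → ℤ) {θ : E} (hθ : f.eval θ = 0) :
    atR (ramDiv e : Pt N f →₀ ℤ) θ = e θ := by
  unfold atR
  rw [dif_pos hθ, ramDiv_apply, if_pos rfl]

lemma uval_ramDiv (e : E → ℤ) {θ : E} (hθ : f.eval θ = 0) :
    uval (ramDiv e : Pt N f →₀ ℤ) θ = (cof f θ ^ al N (wt f θ))⁻¹ ^ e θ *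
      ∏ θ' ∈ f.roots.toFinset.erase θ, (θ - θ') ^ e θ' := by
  have hf0 : f ≠ 0 := f_ne_zero N f
  have hr : ∀ t : E, t ∈ f.roots.toFinset ↔ f.eval t = 0 := by
    intro t
    rw [Multiset.mem_toFinset, mem_roots hf0, IsRoot.def]
  let S : Finset (Pt N f) := f.roots.toFinset.attach.map
    ⟨fun t => ⟨t.1, 0, by rw [zero_pow hG.ne, (hr t.1).mp t.2]⟩,
      fun a b h => Subtype.ext (congrArg Pt.x h)⟩
  have hS : (ramDiv e : Pt N f →₀ ℤ).support ⊆ S := by
    intro P hP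
    rw [Finsupp.mem_support_iff, ramDiv_apply] at hP
    have hy : P.y = 0 := by
      by_contra h
      exact hP (if_neg h)
    have hx : f.eval P.x = 0 := by rw [← P.eq, hy, zero_pow hG.ne]
    refine Finset.mem_map.mpr ⟨⟨P.x, (hr _).mpr hx⟩, Finset.mem_attach _ _, ?_⟩
    ext
    · rfl
    · exact hy.symm
  have h1 : uval (ramDiv e : Pt N f →₀ ℤ) θ = ∏ P ∈ S,
      (if P.x = θ then (cof f θ ^ al N (wt f θ))⁻¹ else θ - P.x) ^ ((ramDiv e : Pt N f →₀ ℤ) P) :=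
    Finsupp.prod_of_support_subset _ hS _ (fun _ _ => zpow_zero _)
  rw [h1, Finset.prod_map]
  have h2 : ∀ t ∈ f.roots.toFinset.attach,
      (fun P : Pt N f => (if P.x = θ then (cof f θ ^ al N (wt f θ))⁻¹ else θ - P.x) ^
        ((ramDiv e : Pt N f →₀ ℤ) P)) (⟨t.1, 0, by
          rw [zero_pow hG.ne, (hr t.1).mp t.2]⟩ : Pt N f)
      = (fun t' : E => (if t' = θ then (cof f θ ^ al N (wt f θ))⁻¹ else θ - t') ^ e t') t.1 := by
    intro t _
    simp
  refine (Finset.prod_congr rfl h2).trans ?_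
  rw [Finset.prod_attach f.roots.toFinset
    (fun t' : E => (if t' = θ then (cof f θ ^ al N (wt f θ))⁻¹ else θ - t') ^ e t'),
    ← Finset.mul_prod_erase _ _ ((hr θ).mpr hθ)]
  rw [if_pos rfl]
  congr 1
  apply Finset.prod_congr rfl
  intro t ht
  rw [if_neg (Finset.ne_of_mem_erase ht)]

end Pool.Agent.Lib.MP_89bcae_ag.Wt
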