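import Mathlib
import Pool.Agent.Lib.MP_89bcae_ag.Wt.X1
import Pool.Agent.Lib.MP_89bcae_ag.Sup.L03

/-!
# The ramified classes, with exponents normalized by the multiplicities
-/

open Polynomial

open scoped Classical

namespace Pool.Agent.Lib.MP_89bcae_ag.Wt

universe u

variable {N : ℕ} {E : Type u} [Field E] {f : E[X]}

section

variable [hG : IsGood N f]

/-- The class of the ramified divisor with exponents `wt θ * n θ`. -/
noncomputable def rm (n : E → ℤ) : Jac N f := ram fun θ => wt f θ * n θ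

lemma rm_congr (n n' : E → ℤ) (h : ∀ θ, f.eval θ = 0 → (N : ℤ) ∣ n θ - n' θ) :
    (rm n : Jac N f) = rm n' := by
  refine ram_congr _ _ fun θ hθ => ?_
  rw [← mul_sub]
  exact (h θ hθ).mul_left _

lemma rm_add (n n' : E → ℤ) : (rm fun θ => n θ + n' θ : Jac N f) = rm n + rm n' := by
  unfold rm
  rw [← ram_add]
  congr 1
  funext θ
  ring

lemma rm_sub (n n' : E → ℤ) : (rm fun θ => n θ - n' θ : Jac N f) = rm n - rm n' := by
  unfold rm
  rw [← ram_sub]
  congr 1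
  funext θ
  ring

lemma rm_zero : (rm (fun _ => 0) : Jac N f) = 0 := by
  have h := rm_sub (N := N) (f := f) (fun _ => 0) (fun _ => 0)
  simpa only [sub_self] using h

lemma rm_neg (n : E → ℤ) : (rm (fun θ => -n θ) : Jac N f) = -rm n := by
  have h := rm_sub (N := N) (f := f) (fun _ => 0) n
  rw [rm_zero, zero_sub] at h
  rw [← h]
  congr 1
  funext θ
  ring

lemma zJ_rm (ζ : E) (hζ : ζ ^ N = 1) (n : E → ℤ) : zJ ζ hζ (rm n : Jac N f) = rm n :=
  zJ_ram ζ hζ _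

lemma smul_rm (n : E → ℤ) : N • (rm n : Jac N f) = 0 := smul_ram _

lemma symJ_rm (σ : Sym f) (n : E → ℤ) :
    symJ σ (rm n : Jac N f) = rm fun θ => n (((σ⁻¹ : Sym f) : E ≃+* E) θ) := by
  unfold rm
  rw [symJ_ram]
  congr 1
  funext θ
  rw [wt_sym]

/-- Every ramified class is of this form. -/
lemma ram_eq_rm (e : E → ℤ) : (ram e : Jac N f) = rm fun θ => al N (wt f θ) * e θ := by
  refine ram_congr _ _ fun θ hθ => ?_
  have h1 := al_wt (N := N) hθ
  have h2 : ((al N (wt f θ) : ℤ) * wt f θ) = be N (wt f θ) * N + 1 := by exact_mod_cast h1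
  refine ⟨-(be N (wt f θ) * e θ), ?_⟩
  linear_combination (-e θ) * h2

lemma exists_rm_of_zJ_eq (ζ : E) (hζ : IsPrimitiveRoot ζ N) (Q : Jac N f)
    (hQ : zJ ζ hζ.pow_eq_one Q = Q) : ∃ n : E → ℤ, Q = rm n := by
  obtain ⟨e, he⟩ := exists_ram_of_zJ_eq ζ hζ Q hQ
  exact ⟨_, he.trans (ram_eq_rm e)⟩

lemma rm_eq_zero_iff (ζ : E) (hζ : IsPrimitiveRoot ζ N) (n : E → ℤ) :
    (rm n : Jac N f) = 0 ↔ ∃ c : ℤ, ∀ θ, f.eval θ = 0 → (N : ℤ) ∣ n θ - c := by
  unfold rm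
  rw [ram_eq_zero_iff ζ hζ]
  refine exists_congr fun c => forall₂_congr fun θ hθ => ?_
  have h1 : (wt f θ : ℤ) * n θ - c * wt f θ = wt f θ * (n θ - c) := by ring
  rw [h1]
  constructor
  · intro h
    have h2 : IsCoprime (N : ℤ) (wt f θ : ℤ) :=
      (Nat.isCoprime_iff_coprime.2 (hG.mult θ hθ)).symm
    exact h2.dvd_of_dvd_mul_left h
  · intro h
    exact h.mul_left _

/-- `kummer_formula` with `rm`. -/
theorem kummer_rm (ζ : E) (hζ : IsPrimitiveRoot ζ N) (Q : Jac N f) (D : Pt N f →₀ ℤ)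
    (hQ : Q - zJ ζ hζ.pow_eq_one Q = cl D) :
    ∃ z : E → E, (∀ θ, f.eval θ = 0 → z θ ≠ 0 ∧
      z θ ^ N = ((-1) ^ (N + 1)) ^ atR D θ * uval D θ) ∧
      ∀ (σ : Sym f), (σ : E ≃+* E) ζ = ζ → D.mapDomain (Pt.sym σ) = D → ∀ n : E → ℤ,
        (∀ θ, f.eval θ = 0 →
          (σ : E ≃+* E) (z θ) = ζ ^ n ((σ : E ≃+* E) θ) * z ((σ : E ≃+* E) θ)) →
        symJ σ Q - Q = rm n :=
  kummer_formula ζ hζ Q D hQ

/-- Image of a ramified class under a homomorphism of fields. -/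
lemma jacMap_rm {E' : Type u} [Field E'] {f' : E'[X]} [hG' : IsGood N f'] (σ : E →+* E')
    (h : f.map σ = f') (e : E → ℤ) (e' : E' → ℤ) (he : ∀ θ, f.eval θ = 0 → e' (σ θ) = e θ) :
    jacMap N σ h (rm e) = rm e' := by
  unfold rm
  refine jacMap_ram σ h _ _ fun θ hθ => ?_
  rw [he θ hθ, wt_map σ h]

end

/-- The multiplicities sum up to the degree. -/
lemma sum_wt [IsAlgClosed E] (f : E[X]) : ∑ θ ∈ Sup.rts f, wt f θ = f.natDegree := by
  unfold Sup.rts wt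
  rw [← IsAlgClosed.card_roots_eq_natDegree, ← Multiset.toFinset_sum_count_eq f.roots]
  exact Finset.sum_congr rfl fun θ _ => (count_roots f).symm

end Pool.Agent.Lib.MP_89bcae_ag.Wt
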